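import Mathlib

set_option autoImplicit false

/-!
# The element `α c(α)` is not a square
-/

namespace Pool.Agent.Y789.SG

open NumberField Polynomial

lemma conj_ne {k : Type} [Field k] [NumberField k] [IsTotallyComplex k] (φ : k →+* ℂ) :
    ComplexEmbedding.conjugate φ ≠ φ := by
  intro h
  have h1 : ComplexEmbedding.IsReal φ := ComplexEmbedding.isReal_iff.2 h
  have h2 : InfinitePlace.IsReal (InfinitePlace.mk φ) := ⟨φ, h1, rfl⟩
  have h3 := IsTotallyComplex.isComplex (InfinitePlace.mk φ)
  exact InfinitePlace.not_isReal_iff_isComplex.2 h3 h2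

/-- trace and norm in an imaginary quadratic field -/
lemma quadC {k : Type} [Field k] [NumberField k] (hk2 : Module.finrank ℚ k = 2)
    [IsTotallyComplex k] (φ : k →+* ℂ) (z : 𝓞 k) :
    ∃ T N : ℤ, φ z + (starRingEnd ℂ) (φ z) = T ∧ φ z * (starRingEnd ℂ) (φ z) = N := by
  classical
  set φ1 : k →ₐ[ℚ] ℂ := RingHom.equivRatAlgHom k ℂ φ with h1
  set φ2 : k →ₐ[ℚ] ℂ := RingHom.equivRatAlgHom k ℂ (ComplexEmbedding.conjugate φ) with h2
  have hne : φ1 ≠ φ2 := fun h => conj_ne φ ((RingHom.equivRatAlgHom k ℂ).injective h).symm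
  have hcard : Fintype.card (k →ₐ[ℚ] ℂ) = 2 := by
    rw [← Fintype.card_congr (RingHom.equivRatAlgHom k ℂ), NumberField.Embeddings.card, hk2]
  have huniv : (Finset.univ : Finset (k →ₐ[ℚ] ℂ)) = {φ1, φ2} := by
    symm
    apply Finset.eq_univ_of_card
    rw [Finset.card_pair hne, hcard]
  have e1 : φ1 (z : k) = φ z := rfl
  have e2 : φ2 (z : k) = (starRingEnd ℂ) (φ z) := rfl
  refine ⟨Algebra.trace ℤ (𝓞 k) z, Algebra.norm ℤ z, ?_, ?_⟩
  · have h3 := trace_eq_sum_embeddings (K := ℚ) (L := k) ℂ (x := (z : k))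
    rw [huniv, Finset.sum_pair hne, e1, e2] at h3
    rw [← h3, ← Algebra.coe_trace_int]
    simp
  · have h3 := Algebra.norm_eq_prod_embeddings ℚ ℂ (z : k)
    rw [huniv, Finset.prod_pair hne, e1, e2] at h3
    rw [← h3, ← Algebra.coe_norm_int]
    simp

/-- the nontrivial automorphism is complex conjugation -/
lemma conj_comp {F K : Type} [Field F] [NumberField F] [IsTotallyReal F] [Field K] [NumberField K]
    [IsTotallyComplex K] [Algebra F K] (hFK : Module.finrank F K = 2) (c : K ≃ₐ[F] K) (hc : c ≠ 1)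
    (φ : K →+* ℂ) (x : K) : φ (c x) = (starRingEnd ℂ) (φ x) := by
  classical
  have hquad : Algebra.IsQuadraticExtension F K := ⟨hFK⟩
  have hcard : Nat.card (K ≃ₐ[F] K) = 2 := by
    rw [IsGalois.card_aut_eq_finrank, hFK]
  have hcuniq : ∀ c' : K ≃ₐ[F] K, c' ≠ 1 → c' = c := by
    intro c' hc'
    obtain ⟨a, b, hab, huniv⟩ := (Nat.card_eq_two_iff).1 hcard
    have h1 : ∀ x : K ≃ₐ[F] K, x = a ∨ x = b := fun x => by
      have : x ∈ ({a, b} : Set (K ≃ₐ[F] K)) := huniv ▸ Set.mem_univ x
      simpa using this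
    rcases h1 1 with h | h <;> rcases h1 c with h' | h' <;> rcases h1 c' with h'' | h'' <;>
      simp_all
  have hF : (φ).comp (algebraMap F K) =
      (ComplexEmbedding.conjugate φ).comp (algebraMap F K) := by
    have h1 : ComplexEmbedding.IsReal (φ.comp (algebraMap F K)) := by
      exact InfinitePlace.isReal_of_mk_isReal
        (IsTotallyReal.isReal (InfinitePlace.mk (φ.comp (algebraMap F K))))
    rw [ComplexEmbedding.isReal_iff] at h1
    exact h1.symm
  obtain ⟨σ, hσ⟩ := ComplexEmbedding.exists_comp_symm_eq_of_comp_eq φ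
    (ComplexEmbedding.conjugate φ) hF
  have h1 : σ.symm ≠ 1 := by
    intro h
    rw [h] at hσ
    exact conj_ne φ hσ.symm
  rw [← hcuniq _ h1]
  exact congrArg (fun f : K →+* ℂ => f x) hσ

/-- the product over the embeddings -/
lemma prod_emb {F : Type} [Field F] [NumberField F] {d : ℕ} (hd : 0 < d)
    (hFd : Module.finrank ℚ F = d) (c : Fin d → ℤ) (w : F) (hw : ∏ i, (w - (c i : F)) = 1)
    (hgen : IntermediateField.adjoin ℚ {w} = ⊤) (x : ℂ) :
    ∏ σ : F →+* ℂ, (x - σ w) = ∏ i, (x - (c i : ℂ)) - 1 := by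
  classical
  set P : ℂ[X] := ∏ l, (X - C (c l : ℂ)) with hP
  set R : ℂ[X] := ∏ σ : F →+* ℂ, (X - C (σ w)) with hR
  have hPm : P.Monic := monic_prod_of_monic _ _ fun i _ => monic_X_sub_C _
  have hPd : P.natDegree = d := by
    rw [hP, natDegree_prod_of_monic _ _ fun i _ => monic_X_sub_C _,
      Finset.sum_congr rfl fun i _ => natDegree_X_sub_C _]
    simp
  have hRm : R.Monic := monic_prod_of_monic _ _ fun i _ => monic_X_sub_C _
  have hcard : Fintype.card (F →+* ℂ) = d := by rw [NumberField.Embeddings.card, hFd]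
  have hRd : R.natDegree = d := by
    rw [hR, natDegree_prod_of_monic _ _ fun i _ => monic_X_sub_C _,
      Finset.sum_congr rfl fun i _ => natDegree_X_sub_C _]
    simp [hcard]
  have hdeg1 : (1 : ℂ[X]).degree < P.degree := by
    rw [degree_one, degree_eq_natDegree hPm.ne_zero, hPd]
    exact_mod_cast hd
  have hQm : (P - 1).Monic := hPm.sub_of_left hdeg1
  have hQd : (P - 1).natDegree = d := by
    rw [natDegree_sub_eq_left_of_natDegree_lt, hPd]
    rw [hPd, natDegree_one]
    exact hd
  have hinj : Function.Injective fun σ : F →+* ℂ => σ w := by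
    intro σ τ hστ
    have hint : Algebra.IsAlgebraic ℚ F := inferInstance
    have htop : Algebra.adjoin ℚ {w} = ⊤ := by
      rw [← IntermediateField.adjoin_simple_toSubalgebra_of_isAlgebraic
        (Algebra.IsAlgebraic.isAlgebraic _), hgen]
      rfl
    apply (RingHom.equivRatAlgHom F ℂ).injective
    apply AlgHom.ext_of_adjoin_eq_top htop
    intro x hx
    rw [Set.mem_singleton_iff] at hx
    subst hx
    exact hστ
  have hRQ : R = P - 1 := by
    apply eq_of_degree_sub_lt_of_eval_finset_eq (Finset.univ.image fun σ : F →+* ℂ => σ w)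
    · rw [Finset.card_image_of_injective _ hinj, Finset.card_univ, hcard, ← hRd,
        ← degree_eq_natDegree hRm.ne_zero]
      apply degree_sub_lt_left
      · rw [degree_eq_natDegree hRm.ne_zero, degree_eq_natDegree hQm.ne_zero, hRd, hQd]
      · exact hRm.ne_zero
      · rw [hRm.leadingCoeff, hQm.leadingCoeff]
    · intro y hy
      rw [Finset.mem_image] at hy
      obtain ⟨σ, _, rfl⟩ := hy
      have h1 : R.eval (σ w) = 0 := by
        rw [hR, eval_prod, Finset.prod_eq_zero (Finset.mem_univ σ)]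
        simp
      have h2 : (P - 1).eval (σ w) = 0 := by
        rw [hP, eval_sub, eval_one, eval_prod]
        have := congrArg σ hw
        simp only [map_prod, map_sub, map_intCast, map_one] at this
        simp [this]
      rw [h1, h2]
  have h1 := congrArg (fun Q : ℂ[X] => Q.eval x) hRQ
  simp only [hR, hP, eval_prod, eval_sub, eval_one, eval_X, eval_C] at h1
  exact h1

end Pool.Agent.Y789.SG
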