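import Mathlib

set_option autoImplicit false

/-!
# Total reality
-/

namespace Pool.Agent.Y789.SG

open NumberField

/-- a root near each `c i` -/
lemma near_root {d : ℕ} (c : Fin d → ℤ) (hc : ∀ i j, i ≠ j → 2 ≤ |c i - c j|) (i : Fin d) :
    ∃ r : ℝ, |r - c i| ≤ 1 ∧ ∏ l, (r - c l) = 1 := by
  classical
  set g : ℝ → ℝ := fun x => ∏ l, (x - (c l : ℝ)) with hg
  have hcont : Continuous g := by
    rw [hg]
    fun_prop
  have h0 : g (c i) = 0 := Finset.prod_eq_zero (Finset.mem_univ i) (sub_self _)
  set q : ℤ → ℤ := fun s => ∏ l ∈ Finset.univ.erase i, (c i + s - c l) with hq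
  have hgs : ∀ s : ℤ, g ((c i : ℝ) + s) = (s * q s : ℤ) := by
    intro s
    simp only [hg]
    rw [← Finset.mul_prod_erase Finset.univ _ (Finset.mem_univ i), hq]
    push_cast
    congr 1
    ring
  have hpos : 0 < q 1 * q (-1) := by
    rw [hq]
    simp only
    rw [← Finset.prod_mul_distrib]
    apply Finset.prod_pos
    intro l hl
    have h1 := hc i l (Finset.ne_of_mem_erase hl).symm
    have h2 : (c i + 1 - c l) * (c i + -1 - c l) = |c i - c l| ^ 2 - 1 := by
      rw [sq_abs]; ring
    rw [h2]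
    nlinarith
  rcases lt_or_ge 0 (q 1) with h1 | h1
  · -- root to the right
    have h2 : (1 : ℝ) ≤ g ((c i : ℝ) + 1) := by
      have h3 := hgs 1
      rw [one_mul, Int.cast_one] at h3
      rw [h3]
      exact_mod_cast h1
    have h4 : (1 : ℝ) ∈ Set.Icc (g (c i)) (g ((c i : ℝ) + 1)) := ⟨by rw [h0]; norm_num, h2⟩
    obtain ⟨r, hr, hr1⟩ := intermediate_value_Icc (by linarith) hcont.continuousOn h4
    refine ⟨r, ?_, hr1⟩
    rw [abs_le]
    constructor <;> linarith [hr.1, hr.2]
  · have h1' : q 1 < 0 := lt_of_le_of_ne h1 (by rintro h; rw [h, zero_mul] at hpos; exact lt_irrefl _ hpos)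
    have hm : q (-1) < 0 := by
      by_contra hcon
      nlinarith
    have h2 : (1 : ℝ) ≤ g ((c i : ℝ) + (-1 : ℤ)) := by
      rw [hgs (-1)]
      have : 1 ≤ -1 * q (-1) := by omega
      exact_mod_cast this
    have h4 : (1 : ℝ) ∈ Set.Icc (g (c i)) (g ((c i : ℝ) + (-1 : ℤ))) := ⟨by rw [h0]; norm_num, h2⟩
    have h5 : (c i : ℝ) + (-1 : ℤ) ≤ c i := by push_cast; linarith
    obtain ⟨r, hr, hr1⟩ := intermediate_value_Icc' h5 hcont.continuousOn h4
    refine ⟨r, ?_, hr1⟩
    have h6 := hr.1
    have h7 := hr.2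
    push_cast at h6
    rw [abs_le]
    constructor <;> linarith

/-- all complex roots are real -/
lemma root_real {d : ℕ} (hd : 0 < d) (c : Fin d → ℤ) (hc : ∀ i j, i ≠ j → 3 ≤ |c i - c j|) (z : ℂ)
    (hz : ∏ l, (z - c l) = 1) : ∃ r : ℝ, z = r := by
  classical
  choose r hr hr1 using near_root c (fun i j h => (by norm_num : (2 : ℤ) ≤ 3).trans (hc i j h))
  have hinj : Function.Injective r := by
    intro i j hij
    by_contra hne
    have h1 := hc i j hne
    have h2 : |(c i : ℝ) - c j| ≤ 2 := by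
      have h3 : (c i : ℝ) - c j = (r j - c j) - (r i - c i) := by rw [hij]; ring
      rw [h3]
      have := abs_sub (r j - c j) (r i - c i)
      linarith [hr i, hr j]
    have h4 : |c i - c j| ≤ 2 := by exact_mod_cast h2
    omega
  set P : Polynomial ℂ := ∏ l, (Polynomial.X - Polynomial.C (c l : ℂ)) with hP
  have hPm : P.Monic := Polynomial.monic_prod_of_monic _ _ fun i _ => Polynomial.monic_X_sub_C _
  have hPd : P.natDegree = d := by
    rw [hP, Polynomial.natDegree_prod_of_monic _ _ fun i _ => Polynomial.monic_X_sub_C _,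
      Finset.sum_congr rfl fun i _ => Polynomial.natDegree_X_sub_C _]
    simp
  set Q : Polynomial ℂ := P - 1 with hQ
  have hdeg1 : (1 : Polynomial ℂ).degree < P.degree := by
    rw [Polynomial.degree_one, Polynomial.degree_eq_natDegree hPm.ne_zero, hPd]
    exact_mod_cast hd
  have hQm : Q.Monic := hPm.sub_of_left hdeg1
  have hQd : Q.natDegree = d := by
    rw [hQ, Polynomial.natDegree_sub_eq_left_of_natDegree_lt, hPd]
    rw [hPd, Polynomial.natDegree_one]
    exact hd
  have hev : ∀ x : ℂ, Q.eval x = ∏ l, (x - c l) - 1 := by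
    intro x
    rw [hQ, Polynomial.eval_sub, Polynomial.eval_one, hP, Polynomial.eval_prod]
    simp
  have hroots : (Finset.univ.image fun i => (r i : ℂ)) = Q.roots.toFinset := by
    apply Finset.eq_of_subset_of_card_le
    · intro x hx
      rw [Finset.mem_image] at hx
      obtain ⟨i, _, rfl⟩ := hx
      rw [Multiset.mem_toFinset, Polynomial.mem_roots hQm.ne_zero, Polynomial.IsRoot.def, hev]
      have := hr1 i
      have h2 := congrArg (fun x : ℝ => (x : ℂ)) this
      push_cast at h2
      rw [h2, sub_self]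
    · rw [Finset.card_image_of_injective _ fun i j h => hinj (by exact_mod_cast h)]
      rw [Finset.card_univ, Fintype.card_fin, ← hQd]
      exact (Multiset.toFinset_card_le _).trans (Polynomial.card_roots' Q)
  have hz2 : z ∈ Q.roots.toFinset := by
    rw [Multiset.mem_toFinset, Polynomial.mem_roots hQm.ne_zero, Polynomial.IsRoot.def, hev, hz,
      sub_self]
  rw [← hroots, Finset.mem_image] at hz2
  obtain ⟨i, _, hi⟩ := hz2
  exact ⟨r i, hi.symm⟩

/-- the field is totally real -/
theorem totally_real {d : ℕ} (hd : 0 < d) (c : Fin d → ℤ) (hc : ∀ i j, i ≠ j → 3 ≤ |c i - c j|)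
    (F : Type) [Field F] [NumberField F] (w : F) (hw : ∏ i, (w - (c i : F)) = 1)
    (hgen : IntermediateField.adjoin ℚ {w} = ⊤) : IsTotallyReal F := by
  refine ⟨fun v => ?_⟩
  rw [InfinitePlace.isReal_iff, ComplexEmbedding.isReal_iff]
  set φ := v.embedding with hφ
  have h1 : ∏ l, (φ w - c l) = 1 := by
    have := congrArg φ hw
    simpa using this
  obtain ⟨r, hr⟩ := root_real hd c hc _ h1
  have h2 : ComplexEmbedding.conjugate φ w = φ w := by
    rw [ComplexEmbedding.conjugate_coe_eq, hr, Complex.conj_ofReal]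
  have h3 : (RingHom.equivRatAlgHom F ℂ (ComplexEmbedding.conjugate φ)) =
      (RingHom.equivRatAlgHom F ℂ φ) := by
    have hint : Algebra.IsAlgebraic ℚ F := inferInstance
    have htop : Algebra.adjoin ℚ {w} = ⊤ := by
      rw [← IntermediateField.adjoin_simple_toSubalgebra_of_isAlgebraic
        (Algebra.IsAlgebraic.isAlgebraic _), hgen]
      rfl
    apply AlgHom.ext_of_adjoin_eq_top htop
    intro x hx
    rw [Set.mem_singleton_iff] at hx
    subst hx
    exact h2
  exact (RingHom.equivRatAlgHom F ℂ).injective h3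

end Pool.Agent.Y789.SG
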