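import Mathlib
import Pool.Agent.Y789.SG.Real
import Pool.Agent.Y789.SG.NonSqC

set_option autoImplicit false

/-!
# Existence of the data and of the fields
-/

namespace Pool.Agent.Y789.SG

open NumberField

section data

variable {k : Type} [Field k] [NumberField k] [IsTotallyComplex k]

/-- a square root of a negative integer -/
lemma exists_delta (hk : Module.finrank ℚ k = 2) (φ : k →+* ℂ) :
    ∃ (δ : 𝓞 k) (D : ℤ), 0 < D ∧ δ ^ 2 = -(D : 𝓞 k) ∧ (starRingEnd ℂ) (φ δ) = -φ δ ∧ φ δ ≠ 0 := by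
  obtain ⟨x, hx⟩ : ∃ x : k, (starRingEnd ℂ) (φ x) ≠ φ x := by
    by_contra hcon
    push Not at hcon
    exact conj_ne φ (RingHom.ext hcon)
  have hxa : IsAlgebraic ℤ x := by
    rw [IsFractionRing.isAlgebraic_iff ℤ ℚ k]
    exact Algebra.IsAlgebraic.isAlgebraic x
  obtain ⟨n, hn, hnx⟩ := hxa.exists_integral_multiple
  set z : 𝓞 k := ⟨n • x, hnx⟩ with hz
  have hzc : φ (z : k) = (n : ℂ) * φ x := by
    change φ (n • x) = _
    rw [map_zsmul, zsmul_eq_mul]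
  have hz2 : (starRingEnd ℂ) (φ z) ≠ φ z := by
    rw [hzc, map_mul, map_intCast]
    intro h
    exact hx (mul_left_cancel₀ (by exact_mod_cast hn) h)
  obtain ⟨T, N, hT, hN⟩ := quadC hk φ z
  have hδ : φ ((2 * z - (T : 𝓞 k) : 𝓞 k) : k) = φ z - (starRingEnd ℂ) (φ z) := by
    have h1 : ((2 * z - (T : 𝓞 k) : 𝓞 k) : k) = 2 * (z : k) - (T : k) := by
      have h2 := map_sub (algebraMap (𝓞 k) k) (2 * z) (T : 𝓞 k)
      rw [map_mul, map_ofNat, map_intCast] at h2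
      exact h2
    rw [h1, map_sub, map_mul, map_ofNat, map_intCast, ← hT]
    ring
  have hne : φ ((2 * z - (T : 𝓞 k) : 𝓞 k) : k) ≠ 0 := by
    rw [hδ]
    exact sub_ne_zero.2 hz2.symm
  have hD : (φ z - (starRingEnd ℂ) (φ z)) ^ 2 = ((T ^ 2 - 4 * N : ℤ) : ℂ) := by
    push_cast
    rw [← hT, ← hN]
    ring
  have hDneg : T ^ 2 - 4 * N < 0 := by
    have h1 : (φ z - (starRingEnd ℂ) (φ z)) ^ 2 = ((-(2 * (φ z).im) ^ 2 : ℝ) : ℂ) := by
      apply Complex.ext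
      · simp [pow_two]
        ring
      · simp [pow_two]
    rw [hD] at h1
    have h2 : ((T ^ 2 - 4 * N : ℤ) : ℝ) = -(2 * (φ z).im) ^ 2 := by exact_mod_cast h1
    have h3 : (φ z).im ≠ 0 := fun h => hz2 (Complex.conj_eq_iff_im.2 h)
    have h4 : 0 < (2 * (φ z).im) ^ 2 := by positivity
    have h5 : ((T ^ 2 - 4 * N : ℤ) : ℝ) < 0 := by rw [h2]; linarith
    exact_mod_cast h5
  refine ⟨2 * z - T, -(T ^ 2 - 4 * N), by linarith, ?_, ?_, hne⟩
  · apply RingOfIntegers.ext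
    apply φ.injective
    have h1 : (((2 * z - (T : 𝓞 k)) ^ 2 : 𝓞 k) : k) = ((2 * z - (T : 𝓞 k) : 𝓞 k) : k) ^ 2 :=
      map_pow (algebraMap (𝓞 k) k) _ 2
    have h2 : ((-((-(T ^ 2 - 4 * N) : ℤ) : 𝓞 k) : 𝓞 k) : k) = ((T ^ 2 - 4 * N : ℤ) : k) := by
      have h3 : (-((-(T ^ 2 - 4 * N) : ℤ) : 𝓞 k) : 𝓞 k) = ((T ^ 2 - 4 * N : ℤ) : 𝓞 k) := by
        push_cast; ring
      rw [h3]
      exact map_intCast (algebraMap (𝓞 k) k) _
    rw [h1, h2, map_pow, hδ, hD, map_intCast]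
  · rw [hδ, map_sub, Complex.conj_conj]
    ring

omit [NumberField k] [IsTotallyComplex k] in
lemma prod_xy (δ : 𝓞 k) (D : ℤ) (hδ : δ ^ 2 = -(D : 𝓞 k)) (d : ℕ) (n : ℕ) (hn : n ≤ d) :
    ∃ x y : ℤ, ∏ i ∈ Finset.range n, (1 + (2 : 𝓞 k) ^ (2 * d - 2 * i) * δ) = x + y * δ ∧
      Odd x ∧ (2 : ℤ) ^ (2 * d - 2 * n + 1) ∣ y ∧ (0 < n → y ≠ 0) := by
  induction n with
  | zero => exact ⟨1, 0, by simp, odd_one, dvd_zero _, fun h => absurd h (lt_irrefl _)⟩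
  | succ n ih =>
    obtain ⟨x, y, h1, h2, ⟨q, hq⟩, h4⟩ := ih (by omega)
    rw [Finset.prod_range_succ, h1]
    obtain ⟨e, he⟩ : ∃ e, 2 * d - 2 * n = e + 2 := ⟨2 * d - 2 * n - 2, by omega⟩
    have he' : 2 * d - 2 * (n + 1) = e := by omega
    have hodd : Odd (2 * q + x) := by
      exact (even_two_mul q).add_odd h2
    have hy : y + x * 2 ^ (e + 2) = 2 ^ (e + 1) * (2 * (2 * q + x)) := by
      rw [hq, he]
      ring
    refine ⟨x - D * y * 2 ^ (e + 2), y + x * 2 ^ (e + 2), ?_, ?_, ?_, ?_⟩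
    · rw [he]
      push_cast
      linear_combination (y : 𝓞 k) * 2 ^ (e + 2) * hδ
    · rw [pow_succ, ← mul_assoc]
      exact h2.sub_even (even_iff_two_dvd.2 (Dvd.intro_left _ rfl))
    · rw [he', hy]
      exact Dvd.intro _ rfl
    · intro _ h0
      rw [hy] at h0
      have h5 : 2 * q + x = 0 := by
        have h6 : (2 : ℤ) ^ (e + 1) ≠ 0 := by positivity
        have h7 := (mul_eq_zero.1 h0).resolve_left h6
        omega
      rw [h5] at hodd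
      exact absurd hodd (by decide)

/-- **The data exist.** -/
theorem exists_data (hk : Module.finrank ℚ k = 2) (d : ℕ) (hd : 0 < d) :
    ∃ (b : Fin d → ℤ) (a : 𝓞 k) (β : Fin d → 𝓞 k), Function.Injective b ∧
      (∀ i, (b i : 𝓞 k) - a = β i ^ 2) ∧ (∀ i, β i ≠ 0) ∧
      ∀ n : ℤ, ∏ i, β i ^ 2 ≠ (n : 𝓞 k) := by
  obtain ⟨φ⟩ : Nonempty (k →+* ℂ) := inferInstance
  obtain ⟨δ, D, hD, hδ, hδc, hδ0⟩ := exists_delta hk φ
  -- linear independence
  have hlin : ∀ x y : ℤ, (x : 𝓞 k) + y * δ = 0 → x = 0 ∧ y = 0 := by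
    intro x y h
    have h1 : (x : ℂ) + y * φ δ = 0 := by
      have h2 := congrArg (fun z : 𝓞 k => φ (algebraMap (𝓞 k) k z)) h
      simp only [map_add, map_mul, map_intCast, map_zero] at h2
      exact h2
    have h3 := congrArg (starRingEnd ℂ) h1
    rw [map_add, map_mul, map_intCast, map_intCast, hδc, map_zero] at h3
    have h4 : (x : ℂ) = 0 := by linear_combination (h1 + h3) / 2
    have h5 : (y : ℂ) * φ δ = 0 := by linear_combination h1 - h4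
    have h6 : (y : ℂ) = 0 := (mul_eq_zero.1 h5).resolve_right hδ0
    exact ⟨by exact_mod_cast h4, by exact_mod_cast h6⟩
  refine ⟨fun i => 4 ^ (i : ℕ) - D * 4 ^ (2 * d - i), -(2 ^ (2 * d + 1) * δ),
    fun i => 2 ^ (i : ℕ) + 2 ^ (2 * d - i) * δ, ?_, ?_, ?_, ?_⟩
  · apply StrictMono.injective
    intro i j hij
    have hij' : (i : ℕ) < j := hij
    have h1 : (4 : ℤ) ^ (i : ℕ) < 4 ^ (j : ℕ) := pow_lt_pow_right₀ (by norm_num) hij'
    have h2 : (4 : ℤ) ^ (2 * d - (j : ℕ)) ≤ 4 ^ (2 * d - (i : ℕ)) :=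
      pow_le_pow_right₀ (by norm_num) (by omega)
    simp only
    nlinarith
  · intro i
    have h0 : ∀ n : ℕ, (4 : 𝓞 k) ^ n = (2 ^ n) ^ 2 := by
      intro n
      rw [← pow_mul, mul_comm, pow_mul]
      norm_num
    have h1 := h0 (i : ℕ)
    have h2 := h0 (2 * d - (i : ℕ))
    have h3 : (2 : 𝓞 k) ^ (2 * d + 1) = 2 * 2 ^ (i : ℕ) * 2 ^ (2 * d - (i : ℕ)) := by
      have hi := i.2
      rw [mul_assoc, ← pow_add, ← pow_succ']
      congr 1
      omega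
    push_cast
    rw [h1, h2, h3]
    linear_combination -(2 ^ (2 * d - (i : ℕ)) : 𝓞 k) ^ 2 * hδ
  · intro i h0
    have h1 := (hlin (2 ^ (i : ℕ)) (2 ^ (2 * d - (i : ℕ))) (by push_cast; exact h0)).1
    exact absurd h1 (by positivity)
  · intro n hn
    obtain ⟨x, y, h1, h2, -, h4⟩ := prod_xy δ D hδ d d le_rfl
    have hy := h4 hd
    have hx : x ≠ 0 := by
      rintro rfl
      exact absurd h2 (by decide)
    rw [Finset.prod_pow] at hn
    have h5 : ∏ i : Fin d, ((2 : 𝓞 k) ^ (i : ℕ) + 2 ^ (2 * d - (i : ℕ)) * δ) =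
        (∏ i : Fin d, (2 : 𝓞 k) ^ (i : ℕ)) * (x + y * δ) := by
      rw [← h1, ← Fin.prod_univ_eq_prod_range (fun i => 1 + (2 : 𝓞 k) ^ (2 * d - 2 * i) * δ) d,
        ← Finset.prod_mul_distrib]
      refine Finset.prod_congr rfl fun i _ => ?_
      have h6 : (2 : 𝓞 k) ^ (2 * d - (i : ℕ)) = 2 ^ (i : ℕ) * 2 ^ (2 * d - 2 * (i : ℕ)) := by
        have hi := i.2
        rw [← pow_add]
        congr 1
        omega
      rw [h6]
      ring
    rw [h5] at hn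
    set s : ℤ := ∏ i : Fin d, (2 : ℤ) ^ (i : ℕ) with hs
    have hs' : (∏ i : Fin d, (2 : 𝓞 k) ^ (i : ℕ)) = (s : 𝓞 k) := by
      rw [hs]; push_cast; rfl
    have hs0 : s ≠ 0 := Finset.prod_ne_zero_iff.2 fun i _ => by positivity
    rw [hs'] at hn
    have h7 := (hlin (s ^ 2 * (x ^ 2 - D * y ^ 2) - n) (s ^ 2 * (2 * x * y)) (by
      push_cast
      linear_combination hn - (s : 𝓞 k) ^ 2 * (y : 𝓞 k) ^ 2 * hδ)).2
    have h8 : s ^ 2 * (2 * x * y) ≠ 0 := by positivity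
    exact h8 h7

end data

end Pool.Agent.Y789.SG
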