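import Mathlib
import Pool.Agent.Y789.SG.Real
import Pool.Agent.Y789.SG.NonSqC

set_option autoImplicit false

/-!
# Existence of the fields
-/

namespace Pool.Agent.Y789.SG

open NumberField IntermediateField

/-- **The fields exist.** -/
theorem exists_fields {k : Type} [Field k] [NumberField k] [IsTotallyComplex k]
    (hk : Module.finrank ℚ k = 2) (d : ℕ) (hd : 0 < d) (c : Fin d → ℤ)
    (hc : ∀ i j, i ≠ j → 2 ≤ |c i - c j|) :
    ∃ (F K : Type) (_ : Field F) (_ : NumberField F) (_ : Field K) (_ : NumberField K)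
      (_ : Algebra F K) (_ : Algebra k K) (w : F), Module.finrank F K = 2 ∧
      ∏ i, (w - (c i : F)) = 1 ∧ IntermediateField.adjoin ℚ {w} = ⊤ := by
  classical
  obtain ⟨r, -, hr⟩ := near_root c hc ⟨0, hd⟩
  obtain ⟨φ⟩ : Nonempty (k →+* ℂ) := inferInstance
  set w₀ : ℂ := (r : ℂ) with hw₀
  have hroot : ∏ i, (w₀ - (c i : ℂ)) = 1 := by
    have := congrArg (fun x : ℝ => (x : ℂ)) hr
    push_cast at this
    exact this
  have hint : IsIntegral ℚ w₀ := by
    refine ⟨(∏ i, (Polynomial.X - Polynomial.C (c i : ℚ))) - 1, ?_, ?_⟩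
    · have hm : (∏ i, (Polynomial.X - Polynomial.C (c i : ℚ))).Monic :=
        Polynomial.monic_prod_of_monic _ _ fun i _ => Polynomial.monic_X_sub_C _
      apply hm.sub_of_left
      rw [Polynomial.degree_one, Polynomial.degree_eq_natDegree hm.ne_zero,
        Polynomial.natDegree_prod_of_monic _ _ fun i _ => Polynomial.monic_X_sub_C _,
        Finset.sum_congr rfl fun i _ => Polynomial.natDegree_X_sub_C _]
      simp only [Finset.sum_const, Finset.card_univ, Fintype.card_fin, smul_eq_mul, mul_one]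
      exact_mod_cast hd
    · rw [← Polynomial.aeval_def, map_sub, map_one, map_prod, sub_eq_zero, ← hroot]
      refine Finset.prod_congr rfl fun i _ => ?_
      simp
  have hF1 : FiniteDimensional ℚ (ℚ⟮w₀⟯) := adjoin.finiteDimensional hint
  have hNF : NumberField (ℚ⟮w₀⟯) := { to_charZero := inferInstance, to_finiteDimensional := hF1 }
  obtain ⟨x, hx⟩ := Field.exists_primitive_element ℚ k
  set y : ℂ := φ x with hy
  have hyint : IsIntegral ℚ y := by
    have h1 : IsIntegral ℚ x := Algebra.IsIntegral.isIntegral x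
    exact h1.map (RingHom.equivRatAlgHom k ℂ φ)
  have hyintF : IsIntegral (ℚ⟮w₀⟯) y := hyint.tower_top
  have hK1 : FiniteDimensional (ℚ⟮w₀⟯) ((ℚ⟮w₀⟯)⟮y⟯) := adjoin.finiteDimensional hyintF
  have hK2 : FiniteDimensional ℚ ((ℚ⟮w₀⟯)⟮y⟯) := FiniteDimensional.trans ℚ (ℚ⟮w₀⟯) ((ℚ⟮w₀⟯)⟮y⟯)
  have hNK : NumberField ((ℚ⟮w₀⟯)⟮y⟯) := { to_charZero := inferInstance, to_finiteDimensional := hK2 }
  have htop : Algebra.adjoin ℚ {x} = ⊤ := by
    rw [← IntermediateField.adjoin_simple_toSubalgebra_of_isAlgebraic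
      (Algebra.IsAlgebraic.isAlgebraic _), hx]
    rfl
  have hmem : ∀ z : k, φ z ∈ ((ℚ⟮w₀⟯)⟮y⟯ : IntermediateField (ℚ⟮w₀⟯) ℂ) := by
    intro z
    have hz : z ∈ Algebra.adjoin ℚ {x} := by rw [htop]; trivial
    induction hz using Algebra.adjoin_induction with
    | mem z hz =>
      rw [Set.mem_singleton_iff] at hz
      subst hz
      exact mem_adjoin_simple_self _ _
    | algebraMap q =>
      have : φ (algebraMap ℚ k q) = ((q : ℚ) : ℂ) := by simp
      rw [this]
      exact SubfieldClass.ratCast_mem _ q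
    | add a b _ _ ha hb => rw [map_add]; exact add_mem ha hb
    | mul a b _ _ ha hb => rw [map_mul]; exact mul_mem ha hb
  let alg : Algebra k ((ℚ⟮w₀⟯)⟮y⟯) :=
    (φ.codRestrict ((ℚ⟮w₀⟯)⟮y⟯).toSubring hmem).toAlgebra
  refine ⟨ℚ⟮w₀⟯, (ℚ⟮w₀⟯)⟮y⟯, inferInstance, hNF, inferInstance, hNK, inferInstance, alg,
    AdjoinSimple.gen ℚ w₀, ?_, ?_, ?_⟩
  · rw [adjoin.finrank hyintF]
    have h1 : (minpoly (ℚ⟮w₀⟯) y).natDegree ≤ 2 := by
      have h2 : minpoly (ℚ⟮w₀⟯) y ∣ (minpoly ℚ y).map (algebraMap ℚ (ℚ⟮w₀⟯)) :=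
        minpoly.dvd_map_of_isScalarTower ℚ (ℚ⟮w₀⟯) y
      have h3 := Polynomial.natDegree_le_of_dvd h2
        (Polynomial.map_ne_zero (minpoly.ne_zero hyint))
      rw [Polynomial.natDegree_map] at h3
      refine h3.trans ?_
      have h4 : minpoly ℚ y = minpoly ℚ x :=
        minpoly.algHom_eq (RingHom.equivRatAlgHom k ℂ φ) φ.injective x
      rw [h4, ← hk]
      exact minpoly.natDegree_le x
    have h2 : 0 < (minpoly (ℚ⟮w₀⟯) y).natDegree := minpoly.natDegree_pos hyintF
    have h3 : (minpoly (ℚ⟮w₀⟯) y).natDegree ≠ 1 := by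
      intro h
      rw [minpoly.natDegree_eq_one_iff] at h
      obtain ⟨z, hz⟩ := h
      -- elements of `ℚ(r)` are real
      have h6 : ∀ z : ℂ, z ∈ Algebra.adjoin ℚ {w₀} → (starRingEnd ℂ) z = z := by
        intro z h5
        induction h5 using Algebra.adjoin_induction with
        | mem z hz =>
          rw [Set.mem_singleton_iff] at hz
          subst hz
          rw [hw₀, Complex.conj_ofReal]
        | algebraMap q => simp
        | add a b _ _ ha hb => rw [map_add, ha, hb]
        | mul a b _ _ ha hb => rw [map_mul, ha, hb]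
      have h4 : ∀ z : ℚ⟮w₀⟯, (starRingEnd ℂ) (z : ℂ) = (z : ℂ) := by
        intro z
        apply h6
        rw [← adjoin_simple_toSubalgebra_of_isAlgebraic hint.isAlgebraic]
        exact z.2
      have h5 : (starRingEnd ℂ) y = y := by
        rw [← hz]
        exact h4 z
      apply conj_ne φ
      apply (RingHom.equivRatAlgHom k ℂ).injective
      apply AlgHom.ext_of_adjoin_eq_top htop
      intro z hz
      rw [Set.mem_singleton_iff] at hz
      subst hz
      exact h5
    omega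
  · apply (algebraMap (ℚ⟮w₀⟯) ℂ).injective
    rw [map_prod, map_one, ← hroot]
    refine Finset.prod_congr rfl fun i _ => ?_
    rw [map_sub, map_intCast, AdjoinSimple.algebraMap_gen]
  · rw [eq_top_iff]
    have h1 : lift (IntermediateField.adjoin ℚ {AdjoinSimple.gen ℚ w₀}) = ℚ⟮w₀⟯ := by
      rw [lift_adjoin_simple, AdjoinSimple.coe_gen]
    intro z _
    have h2 : (z : ℂ) ∈ lift (IntermediateField.adjoin ℚ {AdjoinSimple.gen ℚ w₀}) := by
      rw [h1]
      exact z.2
    exact (mem_lift z).1 h2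

end Pool.Agent.Y789.SG
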