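import Mathlib
import Pool.Agent.W239.LF.Lau
import Pool.Agent.W605.LF.PLC

set_option autoImplicit false

/-!
# The place `t = 0`
-/

namespace Pool.Agent.Y789.SG

open Polynomial
open Pool.Agent.W239.LF (henselPS th th_coeff tp co co_coeff_neg co_coeff th_co tp_const tp_X_mul
  tp_add tp_C alg_eq)

attribute [-instance] HahnSeries.powerSeriesAlgebra

noncomputable section

variable (K : Type) [Field K]

/-- The derivation `d/dt`. -/
def D0 : Derivation K (LaurentSeries K) (LaurentSeries K) :=
  (HahnSeries.single (-1 : ℤ) (1 : K)) • th K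

theorem D0_apply (f : LaurentSeries K) : D0 K f = HahnSeries.single (-1 : ℤ) (1 : K) * th K f := by
  rw [D0, Derivation.smul_apply, smul_eq_mul]

/-- The residue. -/
def r0 : LaurentSeries K →ₗ[K] K where
  toFun f := f.coeff (-1)
  map_add' f g := by simp
  map_smul' r f := by simp

theorem r0_apply (f : LaurentSeries K) : r0 K f = f.coeff (-1) := rfl

theorem r0_D0 (f : LaurentSeries K) : r0 K (D0 K f) = 0 := by
  rw [r0_apply, D0_apply, HahnSeries.coeff_single_mul, th_coeff]
  simp

/-- the parameter -/
abbrev t0 : LaurentSeries K := co K PowerSeries.X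

theorem t0_eq : t0 K = HahnSeries.single (1 : ℤ) (1 : K) := by
  rw [t0, HahnSeries.ofPowerSeries_X]

theorem D0_t0 : D0 K (t0 K) = 1 := by
  rw [D0_apply, t0_eq]
  ext n
  rw [HahnSeries.coeff_single_mul, th_coeff, HahnSeries.coeff_single, HahnSeries.coeff_one]
  by_cases hn : n = 0
  · subst hn; simp
  · rw [if_neg hn, if_neg (by omega)]; simp

theorem co_ne {g : PowerSeries K} (hg : g ≠ 0) : co K g ≠ 0 := by
  intro h
  exact hg (HahnSeries.ofPowerSeries_injective (h.trans (map_zero (co K)).symm))

theorem r0_single_mul_co (g : PowerSeries K) :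
    r0 K (HahnSeries.single (-1 : ℤ) (1 : K) * co K g) = PowerSeries.constantCoeff g := by
  rw [r0_apply, HahnSeries.coeff_single_mul]
  have := co_coeff K g 0
  rw [PowerSeries.coeff_zero_eq_constantCoeff_apply] at this
  simpa using this

/-- logarithmic derivative of a unit -/
theorem res_unit (g : PowerSeries K) (hg : PowerSeries.constantCoeff g ≠ 0) :
    r0 K (D0 K (co K g) / co K g) = 0 := by
  have hne : co K g ≠ 0 := co_ne K (by rintro rfl; exact hg (map_zero _))
  have hgg : g * g⁻¹ = 1 := PowerSeries.mul_inv_cancel g hg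
  have h9 : tp K g = g * (tp K g * g⁻¹) := by
    calc tp K g = tp K g * 1 := by ring
      _ = tp K g * (g * g⁻¹) := by rw [hgg]
      _ = _ := by ring
  rw [D0_apply, th_co, h9, map_mul, mul_comm (co K g), ← mul_assoc, mul_div_cancel_right₀ _ hne,
    r0_single_mul_co, map_mul, tp_const, zero_mul]

/-- logarithmic derivative of a uniformiser -/
theorem res_unif (v : PowerSeries K) (hv : PowerSeries.constantCoeff v ≠ 0) :
    r0 K (D0 K (co K (PowerSeries.X * v)) / co K (PowerSeries.X * v)) = 1 := by
  have hv0 : v ≠ 0 := by rintro rfl; exact hv (map_zero _)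
  have hne : co K (PowerSeries.X * v) ≠ 0 := co_ne K (mul_ne_zero PowerSeries.X_ne_zero hv0)
  have hvv : v * v⁻¹ = 1 := PowerSeries.mul_inv_cancel v hv
  have h9 : tp K (PowerSeries.X * v) = (PowerSeries.X * v) * ((v + tp K v) * v⁻¹) := by
    rw [tp_X_mul]
    calc PowerSeries.X * (v + tp K v) = PowerSeries.X * (v + tp K v) * 1 := by ring
      _ = PowerSeries.X * (v + tp K v) * (v * v⁻¹) := by rw [hvv]
      _ = _ := by ring
  rw [D0_apply, th_co, h9, map_mul, mul_comm (co K (PowerSeries.X * v)), ← mul_assoc,
    mul_div_cancel_right₀ _ hne, r0_single_mul_co, map_mul, map_add, tp_const, add_zero,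
    ← map_mul, hvv, map_one]

/-- evaluation of constant polynomials at a power series -/
theorem cc_aeval (P : K[X]) (y : PowerSeries K) :
    PowerSeries.constantCoeff (aeval y P) = P.eval (PowerSeries.constantCoeff y) := by
  have h := Polynomial.hom_eval₂ P (algebraMap K (PowerSeries K)) (PowerSeries.constantCoeff (R := K)) y
  rw [aeval_def, h]
  have h2 : (PowerSeries.constantCoeff (R := K)).comp (algebraMap K (PowerSeries K)) = RingHom.id K := by
    ext a
    simp
  rw [h2, eval₂_id]

theorem co_aeval (P : K[X]) (y : PowerSeries K) : co K (aeval y P) = aeval (co K y) P := by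
  rw [aeval_def, aeval_def, Polynomial.hom_eval₂]
  congr 1
  ext1 c
  rw [RingHom.comp_apply, alg_eq]
  rfl

/-- the roots are power series -/
theorem solutions [IsAlgClosed K] (P : K[X]) (hP : P.Monic) (hd : 0 < P.natDegree)
    (hsep : P.Separable) :
    (P.map (algebraMap K (LaurentSeries K)) - Polynomial.C (t0 K)).Splits ∧
    ∀ x : LaurentSeries K, aeval x P = t0 K → ∃ y : PowerSeries K, x = co K y ∧
      aeval y P = PowerSeries.X ∧ P.eval (PowerSeries.constantCoeff y) = 0 := by
  classical
  have hex : ∀ ρ : K, P.eval ρ = 0 → ∃ y : PowerSeries K, aeval y P = PowerSeries.X ∧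
      PowerSeries.constantCoeff y = ρ := by
    intro ρ hρ
    set F : (PowerSeries K)[X] := P.map (algebraMap K (PowerSeries K)) - C PowerSeries.X with hF
    have hev : ∀ y : PowerSeries K, F.eval y = aeval y P - PowerSeries.X := by
      intro y
      rw [hF, eval_sub, eval_C, eval_map_algebraMap]
    have hmap : F.map (PowerSeries.constantCoeff (R := K)) = P := by
      rw [hF, Polynomial.map_sub, Polynomial.map_C, Polynomial.map_map, PowerSeries.constantCoeff_X]
      have h2 : (PowerSeries.constantCoeff (R := K)).comp (algebraMap K (PowerSeries K)) =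
          RingHom.id K := by
        ext a
        simp
      rw [h2, Polynomial.map_id, C_0, sub_zero]
    obtain ⟨y, hy, hy'⟩ := henselPS F ρ
      (by
        rw [hev, map_sub, cc_aeval, PowerSeries.constantCoeff_C, PowerSeries.constantCoeff_X, hρ,
          sub_zero])
      (by
        rw [hmap]
        have h0 : P.eval₂ (RingHom.id K) ρ = 0 := by rw [eval₂_id]; exact hρ
        have := hsep.eval₂_derivative_ne_zero (RingHom.id K) h0
        rwa [Polynomial.eval₂_id] at this)
    refine ⟨y, ?_, hy'⟩
    rw [Polynomial.IsRoot, hev, sub_eq_zero] at hy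
    exact hy
  set n := P.natDegree with hn
  have hcard : P.roots.toFinset.card = n := by
    rw [Multiset.toFinset_card_of_nodup (nodup_roots hsep), IsAlgClosed.card_roots_eq_natDegree]
  set e : Fin n ≃ P.roots.toFinset := (Finset.equivFinOfCardEq hcard).symm with he
  have hroot : ∀ k, P.eval (e k : K) = 0 := by
    intro k
    have := (e k).2
    rw [Multiset.mem_toFinset, mem_roots hP.ne_zero] at this
    exact this
  choose y hy1 hy2 using fun k => hex _ (hroot k)
  have hinj : Function.Injective (fun k => co K (y k)) := by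
    intro k l h
    have h1 := HahnSeries.ofPowerSeries_injective h
    have h2 : (e k : K) = e l := by rw [← hy2 k, ← hy2 l, h1]
    exact e.injective (Subtype.ext h2)
  have hm : (P.map (algebraMap K (LaurentSeries K)) - Polynomial.C (t0 K)).Monic ∧
      (P.map (algebraMap K (LaurentSeries K)) - Polynomial.C (t0 K)).natDegree = n := by
    have h1 : (Polynomial.C (t0 K)).degree < (P.map (algebraMap K (LaurentSeries K))).degree := by
      refine lt_of_le_of_lt degree_C_le ?_
      rw [degree_eq_natDegree (hP.map _).ne_zero, hP.natDegree_map]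
      exact_mod_cast hd
    refine ⟨(hP.map _).sub_of_left h1, ?_⟩
    rw [natDegree_eq_of_degree_eq (degree_sub_eq_left_of_degree_lt h1), hP.natDegree_map]
  have hsol : ∀ k, aeval (co K (y k)) P = t0 K := by
    intro k
    rw [← co_aeval, hy1]
  have hprod := Pool.Agent.W605.LF.eq_prod_of_roots _ hm.1 hm.2 (fun k => co K (y k)) hinj (by
    intro k
    rw [eval_sub, eval_C, eval_map_algebraMap, hsol, sub_self])
  constructor
  · rw [hprod]
    exact Splits.prod fun j _ => Splits.X_sub_C _
  · intro x hx
    have h1 : (P.map (algebraMap K (LaurentSeries K)) - Polynomial.C (t0 K)).eval x = 0 := by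
      rw [eval_sub, eval_C, eval_map_algebraMap, hx, sub_self]
    rw [hprod, eval_prod, Finset.prod_eq_zero_iff] at h1
    obtain ⟨k, _, hk⟩ := h1
    rw [eval_sub, eval_X, eval_C, sub_eq_zero] at hk
    exact ⟨y k, hk, hy1 k, by rw [hy2]; exact hroot k⟩

/-- Hensel uniqueness -/
theorem unique_sol [CharZero K] (P : K[X]) (hsep : P.Separable) (y y' : PowerSeries K)
    (h : aeval y P = aeval y' P) (hr : P.eval (PowerSeries.constantCoeff y) = 0)
    (hc : PowerSeries.constantCoeff y = PowerSeries.constantCoeff y') : y = y' := by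
  by_contra hne
  have h2 := Polynomial.binomExpansion (P.map (algebraMap K (PowerSeries K))) y (y' - y)
  obtain ⟨k, hk⟩ := h2
  rw [add_sub_cancel, eval_map_algebraMap, eval_map_algebraMap, ← h] at hk
  have h3 : (y' - y) * ((P.map (algebraMap K (PowerSeries K))).derivative.eval y + k * (y' - y)) = 0 := by
    linear_combination -hk
  have h4 := (mul_eq_zero.1 h3).resolve_left (sub_ne_zero.2 (Ne.symm hne))
  have h5 := congrArg (PowerSeries.constantCoeff (R := K)) h4
  rw [map_add, map_mul, map_sub, hc, sub_self, mul_zero, add_zero, map_zero, derivative_map,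
    eval_map_algebraMap, cc_aeval] at h5
  have h0 : P.eval₂ (RingHom.id K) (PowerSeries.constantCoeff y) = 0 := by rw [eval₂_id]; exact hr
  have h6 := hsep.eval₂_derivative_ne_zero (RingHom.id K) h0
  rw [Polynomial.eval₂_id] at h6
  exact h6 h5

end

end Pool.Agent.Y789.SG
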