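import Mathlib
import Pool.Agent.W253.LF.Ost
import Pool.Agent.W254.LF.Det
import Pool.Agent.Y789.SG.Plc
import Pool.Agent.Y789.SG.Pla

set_option autoImplicit false

/-!
# The functional determinant
-/

namespace Pool.Agent.Y789.SG

open Polynomial
open Pool.Agent.W239.LF (co alg_eq)

attribute [-instance] HahnSeries.powerSeriesAlgebra

/-- The data: distinct `b_i`, polynomials `π_j` with factorisations `π_j - b_i = U_ij V_ij`. -/
structure Dat (C : Type) [Field C] (d : ℕ) where
  b : Fin d → C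
  binj : Function.Injective b
  pi : Fin d → C[X]
  U : Fin d → Fin d → C[X]
  V : Fin d → Fin d → C[X]
  pim : ∀ j, (pi j).Monic
  pid : ∀ j, 0 < (pi j).natDegree
  fac : ∀ i j, U i j * V i j = pi j - Polynomial.C (b i)
  sep : ∀ j, (∏ i, (pi j - Polynomial.C (b i))).Separable

namespace Dat

variable {C : Type} [Field C] {d : ℕ} (Δ : Dat C d)

/-- `P_j = ∏ (π_j - b_i)` -/
noncomputable def P (j : Fin d) : C[X] := ∏ i, (Δ.pi j - Polynomial.C (Δ.b i))

lemma facm (i j : Fin d) : (Δ.pi j - Polynomial.C (Δ.b i)).Monic := by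
  apply (Δ.pim j).sub_of_left
  refine lt_of_le_of_lt degree_C_le ?_
  rw [degree_eq_natDegree (Δ.pim j).ne_zero]
  exact_mod_cast Δ.pid j

lemma facd (i j : Fin d) : (Δ.pi j - Polynomial.C (Δ.b i)).natDegree = (Δ.pi j).natDegree := by
  exact natDegree_sub_C

lemma Pm (j : Fin d) : (Δ.P j).Monic := monic_prod_of_monic _ _ fun i _ => Δ.facm i j

lemma Pd (j : Fin d) : (Δ.P j).natDegree = d * (Δ.pi j).natDegree := by
  unfold P
  rw [natDegree_prod_of_monic _ _ fun i _ => Δ.facm i j]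
  simp [Δ.facd]

lemma Pd_pos (j : Fin d) : 0 < (Δ.P j).natDegree := by
  rw [Δ.Pd]
  exact Nat.mul_pos (lt_of_le_of_lt (Nat.zero_le _) j.2) (Δ.pid j)

lemma aeval_P {E : Type} [CommRing E] [Algebra C E] (y : E) (j : Fin d) :
    aeval y (Δ.P j) = ∏ i, (aeval y (Δ.pi j) - algebraMap C E (Δ.b i)) := by
  unfold P
  rw [map_prod]
  simp

end Dat

/-- a product which is a uniformiser times a unit -/
lemma res_pm {K : Type} [Field K] (u v w : PowerSeries K) (h : u * v = PowerSeries.X * w)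
    (hw : PowerSeries.constantCoeff w ≠ 0) :
    r0 K (D0 K (co K u) / co K u - D0 K (co K v) / co K v) = 1 ∨
      r0 K (D0 K (co K u) / co K u - D0 K (co K v) / co K v) = -1 := by
  have h0 : PowerSeries.constantCoeff u * PowerSeries.constantCoeff v = 0 := by
    rw [← map_mul, h, map_mul, PowerSeries.constantCoeff_X, zero_mul]
  rcases mul_eq_zero.1 h0 with hu | hv
  · left
    obtain ⟨u', rfl⟩ := PowerSeries.X_dvd_iff.2 hu
    have h1 : u' * v = w := by
      apply mul_left_cancel₀ (PowerSeries.X_ne_zero (R := K))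
      rw [← h]; ring
    have h2 : PowerSeries.constantCoeff u' * PowerSeries.constantCoeff v ≠ 0 := by
      rw [← map_mul, h1]; exact hw
    rw [map_sub, res_unif K u' (left_ne_zero_of_mul h2), res_unit K v (right_ne_zero_of_mul h2),
      sub_zero]
  · right
    obtain ⟨v', rfl⟩ := PowerSeries.X_dvd_iff.2 hv
    have h1 : u * v' = w := by
      apply mul_left_cancel₀ (PowerSeries.X_ne_zero (R := K))
      rw [← h]; ring
    have h2 : PowerSeries.constantCoeff u * PowerSeries.constantCoeff v' ≠ 0 := by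
      rw [← map_mul, h1]; exact hw
    rw [map_sub, res_unit K u (left_ne_zero_of_mul h2), res_unif K v' (right_ne_zero_of_mul h2),
      zero_sub]

/-- **The functional determinant does not vanish.** -/
theorem fun_det {C : Type} [Field C] [CharZero C] [IsAlgClosed C] {d : ℕ} (Δ : Dat C d)
    {E : Type} [Field E] [CharZero E] [Algebra C E] (DE : Derivation C E E) (tE : E)
    (hE : DE tE = 1)
    (hconst : ∀ x : E, DE x = 0 → ∃ c : C, algebraMap C E c = x) (y : Fin d → E)
    (hy : ∀ j, aeval (y j) (Δ.P j) = tE)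
    (hinj : Function.Injective fun j => aeval (y j) (Δ.pi j))
    (Λ : Matrix (Fin d) (Fin d) E)
    (hΛ : ∀ i j, DE (Λ i j) = DE (aeval (y j) (Δ.U i j)) / aeval (y j) (Δ.U i j) -
      DE (aeval (y j) (Δ.V i j)) / aeval (y j) (Δ.V i j)) : Λ.det ≠ 0 := by
  classical
  intro hdet
  obtain ⟨F, DF, ψ, xF, hDF, hxF, hψD, hψx⟩ := plc C E (LaurentSeries C) DE (D0 C) tE (t0 C) hE
    (D0_t0 C) Δ.P Δ.Pm Δ.Pd_pos y hy (fun j => (solutions C (Δ.P j) (Δ.Pm j) (Δ.Pd_pos j)
      (Δ.sep j)).1)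
  choose Y hY1 hY2 hY3 using fun j => (solutions C (Δ.P j) (Δ.Pm j) (Δ.Pd_pos j)
      (Δ.sep j)).2 _ (hψx j)
  -- the indices
  have hσ : ∀ j, ∃ i, (Δ.pi j).eval (PowerSeries.constantCoeff (Y j)) = Δ.b i := by
    intro j
    have h1 := hY3 j
    unfold Dat.P at h1
    rw [eval_prod, Finset.prod_eq_zero_iff] at h1
    obtain ⟨i, _, hi⟩ := h1
    exact ⟨i, by rwa [eval_sub, eval_C, sub_eq_zero] at hi⟩
  choose σ hσ using hσ
  set Ω : Fin d → PowerSeries C := fun j => aeval (Y j) (Δ.pi j) with hΩ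
  have hΩc : ∀ j, PowerSeries.constantCoeff (Ω j) = Δ.b (σ j) := by
    intro j
    rw [hΩ, ← hσ j]
    exact cc_aeval C (Δ.pi j) (Y j)
  set B : C[X] := ∏ i, (X - Polynomial.C (Δ.b i)) with hB
  have hBs : B.Separable := separable_prod_X_sub_C_iff.2 Δ.binj
  have hΩB : ∀ j, aeval (Ω j) B = PowerSeries.X := by
    intro j
    rw [← hY2 j, Δ.aeval_P, hB, map_prod]
    simp [hΩ]
  have hval : ∀ (j : Fin d) (R : C[X]), ((aeval (xF j) R : F) : E) = aeval (y j) R := by
    intro j R
    rw [← hxF j]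
    exact (aeval_algHom_apply F.val (xF j) R).symm
  have hψa : ∀ (j : Fin d) (R : C[X]), ψ (aeval (xF j) R) = co C (aeval (Y j) R) := by
    intro j R
    rw [← aeval_algHom_apply, hY1, ← co_aeval]
  have hσinj : Function.Injective σ := by
    intro j j' hjj
    apply hinj
    have h1 : Ω j = Ω j' := by
      apply unique_sol C B hBs _ _ (by rw [hΩB, hΩB])
      · rw [hΩc, hB, eval_prod]
        exact Finset.prod_eq_zero (Finset.mem_univ (σ j)) (by simp)
      · rw [hΩc, hΩc, hjj]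
    have h2 : ψ (aeval (xF j) (Δ.pi j)) = ψ (aeval (xF j') (Δ.pi j')) := by
      rw [hψa, hψa]
      exact congrArg _ h1
    have h3 := ψ.toRingHom.injective h2
    change aeval (y j) (Δ.pi j) = aeval (y j') (Δ.pi j')
    rw [← hval, ← hval, h3]
  -- the residues
  let r : F →ₗ[C] C := r0 C ∘ₗ ψ.toLinearMap
  have hr : ∀ f, r (DF f) = 0 := by
    intro f
    change r0 C (ψ (DF f)) = 0
    rw [hψD, r0_D0]
  let W : Matrix (Fin d) (Fin d) F := Matrix.of fun i j =>
    DF (aeval (xF j) (Δ.U i j)) / aeval (xF j) (Δ.U i j) -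
      DF (aeval (xF j) (Δ.V i j)) / aeval (xF j) (Δ.V i j)
  have hΛW : ∀ i j, DE (Λ i j) = algebraMap F E (W i j) := by
    intro i j
    rw [hΛ]
    change _ = ((DF (aeval (xF j) (Δ.U i j)) / aeval (xF j) (Δ.U i j) -
      DF (aeval (xF j) (Δ.V i j)) / aeval (xF j) (Δ.V i j) : F) : E)
    push_cast
    rw [← hDF, ← hDF, hval, hval]
  have hcz : CharZero E := inferInstance
  have h1 := Pool.Agent.W254.LF.det_of Pool.Agent.W253.LF.t_OST C F E DF DE (fun f => hDF f)
    hconst r hr d Λ W hΛW hdet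
  have hrW : ∀ i j, r (W i j) = r0 C (D0 C (co C (aeval (Y j) (Δ.U i j))) /
      co C (aeval (Y j) (Δ.U i j)) - D0 C (co C (aeval (Y j) (Δ.V i j))) /
      co C (aeval (Y j) (Δ.V i j))) := by
    intro i j
    change r0 C (ψ (DF (aeval (xF j) (Δ.U i j)) / aeval (xF j) (Δ.U i j) -
      DF (aeval (xF j) (Δ.V i j)) / aeval (xF j) (Δ.V i j))) = _
    rw [map_sub, map_div₀, map_div₀, hψD, hψD, hψa, hψa]
  have hUV : ∀ i j, aeval (Y j) (Δ.U i j) * aeval (Y j) (Δ.V i j) =
      Ω j - PowerSeries.C (Δ.b i) := by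
    intro i j
    rw [← map_mul, Δ.fac, map_sub, aeval_C]
    rfl
  have hoff : ∀ i j, i ≠ σ j → r (W i j) = 0 := by
    intro i j hij
    rw [hrW]
    have h2 : PowerSeries.constantCoeff (aeval (Y j) (Δ.U i j)) *
        PowerSeries.constantCoeff (aeval (Y j) (Δ.V i j)) ≠ 0 := by
      rw [← map_mul, hUV, map_sub, hΩc, PowerSeries.constantCoeff_C, sub_ne_zero]
      exact fun h => hij (Δ.binj h).symm
    rw [map_sub, res_unit C _ (left_ne_zero_of_mul h2), res_unit C _ (right_ne_zero_of_mul h2),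
      sub_zero]
  have hon : ∀ j, r (W (σ j) j) ≠ 0 := by
    intro j
    rw [hrW]
    have h2 := hΩB j
    rw [hB, map_prod, ← Finset.mul_prod_erase _ _ (Finset.mem_univ (σ j))] at h2
    set g : PowerSeries C := ∏ x ∈ Finset.univ.erase (σ j),
      aeval (Ω j) (X - Polynomial.C (Δ.b x)) with hg
    have hgc : PowerSeries.constantCoeff g ≠ 0 := by
      rw [hg, map_prod, Finset.prod_ne_zero_iff]
      intro i hi
      rw [cc_aeval, hΩc, eval_sub, eval_X, eval_C, sub_ne_zero]
      exact fun h => (Finset.ne_of_mem_erase hi) (Δ.binj h).symm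
    have h3 : aeval (Y j) (Δ.U (σ j) j) * aeval (Y j) (Δ.V (σ j) j) = PowerSeries.X * g⁻¹ := by
      rw [hUV]
      have h4 : aeval (Ω j) (X - Polynomial.C (Δ.b (σ j))) = Ω j - PowerSeries.C (Δ.b (σ j)) := by
        rw [map_sub, aeval_X, aeval_C]
        rfl
      rw [h4] at h2
      calc Ω j - PowerSeries.C (Δ.b (σ j)) = (Ω j - PowerSeries.C (Δ.b (σ j))) * (g * g⁻¹) := by
            rw [PowerSeries.mul_inv_cancel g hgc, mul_one]
        _ = ((Ω j - PowerSeries.C (Δ.b (σ j))) * g) * g⁻¹ := by ring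
        _ = _ := by rw [h2]
    have hgi : PowerSeries.constantCoeff g⁻¹ ≠ 0 := by
      rw [PowerSeries.constantCoeff_inv]
      exact inv_ne_zero hgc
    rcases res_pm _ _ _ h3 hgi with h | h <;> rw [h]
    · exact one_ne_zero
    · exact neg_ne_zero.2 one_ne_zero
  have h5 : (W.map r).det ≠ 0 := by
    intro h0
    obtain ⟨v, hv0, hv⟩ := Matrix.exists_vecMul_eq_zero_iff.2 h0
    apply hv0
    have hsurj : Function.Surjective σ := Finite.injective_iff_surjective.1 hσinj
    funext i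
    obtain ⟨j, rfl⟩ := hsurj i
    have h6 := congrFun hv j
    rw [Matrix.vecMul, dotProduct, Finset.sum_eq_single (σ j)] at h6
    · exact (mul_eq_zero.1 h6).resolve_right (hon j)
    · intro i _ hi
      rw [Matrix.map_apply, hoff i j hi, mul_zero]
    · intro h
      exact absurd (Finset.mem_univ _) h
  exact h5 h1

end Pool.Agent.Y789.SG
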