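import Mathlib
import Pool.Agent.W254.LF.Loc
import Pool.Agent.W398.LF.Log
import Pool.Agent.W924.LF.Germ
import Pool.Agent.Y789.SG.Fun

set_option autoImplicit false

/-!
# The determinant of logarithms along analytic branches
-/

namespace Pool.Agent.Y789.SG

open Polynomial Filter Topology
open Pool.Agent.W289.SL Pool.Agent.W254.LF

/-- germs of analytic functions -/
structure Germs (K : Type) [NontriviallyNormedField K] (E : Type) [Field E] [Algebra K E]
    (D0 : Derivation K E E) (T : (K → K) → E) : Prop where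
  const : ∀ x : E, D0 x = 0 → ∃ c : K, algebraMap K E c = x
  c : ∀ c : K, T (fun _ => c) = algebraMap K E c
  add : ∀ f g : K → K, AnalyticAt K f 0 → AnalyticAt K g 0 → T (fun s => f s + g s) = T f + T g
  mul : ∀ f g : K → K, AnalyticAt K f 0 → AnalyticAt K g 0 → T (fun s => f s * g s) = T f * T g
  deriv : ∀ f : K → K, AnalyticAt K f 0 → T (deriv f) = D0 (T f)
  zero : ∀ f : K → K, AnalyticAt K f 0 → T f = 0 → ∀ᶠ s in 𝓝 (0 : K), f s = 0
  congr : ∀ f g : K → K, (∀ᶠ s in 𝓝 (0 : K), f s = g s) → T f = T g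

theorem exists_germs (K : Type) [NontriviallyNormedField K] [CompleteSpace K] [CharZero K] :
    ∃ (E : Type) (_ : Field E) (_ : Algebra K E) (D : Derivation K E E) (T : (K → K) → E),
      Germs K E D T := by
  obtain ⟨E, i1, i2, D, T, h1, h2, h3, h4, h5, h6, h7⟩ := Pool.Agent.W924.LF.t_GERM K
  exact ⟨E, i1, i2, D, T, h1, h2, h3, h4, h5, h6, h7⟩

namespace Germs

variable {K : Type} [NontriviallyNormedField K] {E : Type} [Field E] [Algebra K E]
    {D0 : Derivation K E E} {T : (K → K) → E} (G : Germs K E D0 T)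

include G

/-- `T` as a ring homomorphism -/
noncomputable def hom : anal K →+* E := Thom T G.c G.add G.mul

lemma hom_apply (f : anal K) : G.hom f = T f.1 := rfl

lemma inj {f g : K → K} (hf : AnalyticAt K f 0) (hg : AnalyticAt K g 0) (h : T f = T g) :
    ∀ᶠ s in 𝓝 (0 : K), f s = g s := by
  have h1 : G.hom (⟨f, hf⟩ - ⟨g, hg⟩) = 0 := by
    rw [map_sub, G.hom_apply, G.hom_apply, sub_eq_zero]
    exact h
  have h2 := G.zero (f - g) (hf.sub hg) h1
  filter_upwards [h2] with s hs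
  exact sub_eq_zero.1 hs

lemma id_deriv : D0 (T fun s => s) = 1 := by
  have h1 := G.deriv (fun s => s) analyticAt_id
  have h2 : (_root_.deriv fun s : K => s) = fun _ => 1 := by
    funext s
    exact deriv_id s
  rw [← h1, h2, G.c, map_one]

lemma pow {f : K → K} (hf : AnalyticAt K f 0) (n : ℕ) : T (fun s => f s ^ n) = T f ^ n := by
  have h1 : G.hom (⟨f, hf⟩ ^ n) = G.hom ⟨f, hf⟩ ^ n := map_pow _ _ _
  exact h1

lemma eval {f : K → K} (hf : AnalyticAt K f 0) (P : K[X]) :
    T (fun s => P.eval (f s)) = aeval (T f) P := by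
  induction P using Polynomial.induction_on' with
  | add P Q hP hQ =>
    simp only [eval_add, map_add]
    rw [G.add, hP, hQ]
    · exact (AnalyticAt.aeval_polynomial hf P).congr (by simp [coe_aeval_eq_eval])
    · exact (AnalyticAt.aeval_polynomial hf Q).congr (by simp [coe_aeval_eq_eval])
  | monomial n a =>
    simp only [eval_monomial, aeval_monomial]
    rw [G.mul (fun _ => a) (fun s => f s ^ n) analyticAt_const (hf.pow n), G.c, G.pow hf]

end Germs

/-- **Core.** -/
theorem core {p : ℕ} [Fact p.Prime] {L : ℂ_[p] → ℂ_[p]} (hL : IsIwasawaLog p L) {d : ℕ}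
    (Δ : Dat ℂ_[p] d) {E : Type} [Field E] [Algebra ℂ_[p] E] {D0 : Derivation ℂ_[p] E E}
    {T : (ℂ_[p] → ℂ_[p]) → E} (G : Germs ℂ_[p] E D0 T) (y : Fin d → E) (tE : E)
    (ht : D0 tE ≠ 0) (hy : ∀ j, aeval (y j) (Δ.P j) = tE)
    (hinj : Function.Injective fun j => aeval (y j) (Δ.pi j))
    (f : Fin d → Fin d → ℂ_[p] → ℂ_[p]) (hf : ∀ i j, AnalyticAt ℂ_[p] (f i j) 0)
    (hf0 : ∀ i j, f i j 0 ≠ 0)
    (hfE : ∀ i j, T (f i j) = aeval (y j) (Δ.U i j) / aeval (y j) (Δ.V i j)) :
    ∀ᶠ s in 𝓝[≠] (0 : ℂ_[p]), (Matrix.of fun i j : Fin d => L (f i j s)).det ≠ 0 := by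
  classical
  have hcz : CharZero E := charZero_of_injective_algebraMap (algebraMap ℂ_[p] E).injective
  have hLOG := Pool.Agent.W398.LF.t_LOG p L hL
  set DE : Derivation ℂ_[p] E E := (D0 tE)⁻¹ • D0 with hDE
  have hDEapp : ∀ z, DE z = (D0 tE)⁻¹ * D0 z := fun z => rfl
  have hDEt : DE tE = 1 := by rw [hDEapp, inv_mul_cancel₀ ht]
  have hDEconst : ∀ z : E, DE z = 0 → ∃ c : ℂ_[p], algebraMap ℂ_[p] E c = z := by
    intro z hz
    apply G.const
    rw [hDEapp] at hz
    rcases mul_eq_zero.1 hz with h | h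
    · exact absurd h (inv_ne_zero ht)
    · exact h
  have hyan : ∀ i j, AnalyticAt ℂ_[p] (fun s => L (f i j s)) 0 := fun i j =>
    AnalyticAt.fun_comp (f := fun s => f i j s) (g := L) ((hLOG _ (hf0 i j)).1) (hf i j)
  have hTf0 : ∀ i j, T (f i j) ≠ 0 := by
    intro i j h0
    have h1 := (G.zero _ (hf i j) h0).self_of_nhds
    exact hf0 i j h1
  have hUV0 : ∀ i j, aeval (y j) (Δ.U i j) ≠ 0 ∧ aeval (y j) (Δ.V i j) ≠ 0 := by
    intro i j
    have h1 := hTf0 i j
    rw [hfE] at h1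
    exact div_ne_zero_iff.1 h1
  have hD : ∀ i j, DE (T fun s => L (f i j s)) = DE (T (f i j)) / T (f i j) := by
    intro i j
    have h1 : ∀ᶠ s in 𝓝 (0 : ℂ_[p]),
        deriv (fun s => L (f i j s)) s * f i j s = deriv (f i j) s := by
      have hne : ∀ᶠ s in 𝓝 (0 : ℂ_[p]), f i j s ≠ 0 :=
        ((hf i j).continuousAt).eventually_ne (hf0 i j)
      filter_upwards [hne, (hf i j).eventually_analyticAt] with s hs1 hs2
      have h3 : HasDerivAt (fun s => L (f i j s)) ((f i j s)⁻¹ * deriv (f i j) s) s :=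
        HasDerivAt.comp s (h₂ := L) ((hLOG _ hs1).2) (hs2.differentiableAt.hasDerivAt)
      rw [h3.deriv]
      field_simp
    have h4 := G.congr _ _ h1
    rw [G.mul _ _ (hyan i j).deriv (hf i j), G.deriv _ (hyan i j)] at h4
    have h5 : T (fun s => deriv (f i j) s) = D0 (T (f i j)) := G.deriv _ (hf i j)
    rw [h5] at h4
    rw [hDEapp, hDEapp, eq_div_iff (hTf0 i j), mul_assoc, h4]
  set Λ : Matrix (Fin d) (Fin d) E := Matrix.of fun i j => T fun s => L (f i j s) with hΛ
  have hdet : Λ.det ≠ 0 := by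
    apply fun_det Δ DE tE hDEt hDEconst y hy hinj Λ
    intro i j
    change DE (T fun s => L (f i j s)) = _
    obtain ⟨hu, hv⟩ := hUV0 i j
    rw [hD, hfE, Derivation.leibniz_div]
    simp only [smul_eq_mul]
    field_simp
  let YA : Matrix (Fin d) (Fin d) (anal ℂ_[p]) := Matrix.of fun i j => ⟨_, hyan i j⟩
  have hYA : G.hom YA.det = Λ.det := by
    rw [RingHom.map_det]
    rfl
  have hdval : ∀ s, (YA.det).1 s = (Matrix.of fun i j : Fin d => L (f i j s)).det := by
    intro s
    have h3 := RingHom.map_det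
      ((Pi.evalRingHom (fun _ : ℂ_[p] => ℂ_[p]) s).comp (anal ℂ_[p]).subtype) YA
    exact h3
  rcases (YA.det).2.eventually_eq_zero_or_eventually_ne_zero with h | h
  · exfalso
    apply hdet
    rw [← hYA]
    have h1 : T YA.det.1 = T (fun _ => (0 : ℂ_[p])) := G.congr _ _ h
    rw [G.hom_apply, h1, G.c, map_zero]
  · filter_upwards [h] with s hs
    rw [← hdval]
    exact hs

end Pool.Agent.Y789.SG
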