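import Mathlib
import Pool.Agent.W542.LF.Ram

set_option autoImplicit false

/-!
# Analytic parametrisation of the solutions of `G(y) = s ^ M H(y)`
-/

namespace Pool.Agent.Y789.SG

open Polynomial Filter Topology
open Pool.Agent.W542.LF (inv_fun nth_root)

section

variable {K : Type} [NontriviallyNormedField K] [CompleteSpace K] [CharZero K]

lemma an_eval (Q : K[X]) (x : K) : AnalyticAt K (fun z => Q.eval z) x := by
  have h := AnalyticAt.aeval_polynomial (f := fun z : K => z) (analyticAt_id (𝕜 := K) (z := x)) Q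
  simpa [coe_aeval_eq_eval] using h

/-- the local branch at a root of multiplicity `n` -/
theorem branch [IsAlgClosed K] (G H : K[X]) (ρ : K) (G1 : K[X]) (n : ℕ) (hn : 0 < n)
    (hG : G = (X - C ρ) ^ n * G1) (hGρ : G1.eval ρ ≠ 0) (hPρ : H.eval ρ ≠ 0) :
    ∃ ψ h : K → K, AnalyticAt K ψ 0 ∧ ψ 0 = ρ ∧ (∀ᶠ w in 𝓝 (0 : K), h (ψ w) = w) ∧
      ∀ᶠ w in 𝓝 (0 : K), G.eval (ψ w) = w ^ n * H.eval (ψ w) := by
  have hg : AnalyticAt K (fun x => G1.eval x / H.eval x) ρ := (an_eval G1 ρ).div (an_eval H ρ) hPρ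
  obtain ⟨r, hr1, hr2, hr3⟩ := nth_root n hn _ ρ hg (div_ne_zero hGρ hPρ)
  set h : K → K := fun x => (x - ρ) * r x with hh
  have hha : AnalyticAt K h ρ := (analyticAt_id.sub analyticAt_const).mul hr1
  have hhρ : h ρ = 0 := by simp [hh]
  have hd : deriv h ρ ≠ 0 := by
    have h1 : HasDerivAt h (1 * r ρ + (ρ - ρ) * deriv r ρ) ρ :=
      ((hasDerivAt_id ρ).sub_const ρ).mul hr1.differentiableAt.hasDerivAt
    rw [h1.deriv]
    simpa using hr2
  obtain ⟨ψ, hψ1, hψ2, hψ3⟩ := inv_fun h ρ hha hd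
  rw [hhρ] at hψ1 hψ2 hψ3
  refine ⟨ψ, h, hψ1, hψ2, hψ3, ?_⟩
  have hcont : Tendsto ψ (𝓝 0) (𝓝 ρ) := by
    have := hψ1.continuousAt.tendsto
    rwa [hψ2] at this
  have e1 : ∀ᶠ w in 𝓝 (0 : K), r (ψ w) ^ n = G1.eval (ψ w) / H.eval (ψ w) :=
    hcont.eventually hr3
  have e2 : ∀ᶠ w in 𝓝 (0 : K), H.eval (ψ w) ≠ 0 := by
    have : ∀ᶠ x in 𝓝 ρ, H.eval x ≠ 0 := (an_eval H ρ).continuousAt.eventually_ne hPρ
    exact hcont.eventually this
  filter_upwards [hψ3, e1, e2] with w h1 h2 h3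
  have h5 : w ^ n = (h (ψ w)) ^ n := by rw [h1]
  rw [h5, hG, hh]
  simp only [eval_mul, eval_pow, eval_sub, eval_X, eval_C]
  rw [mul_pow, h2]
  field_simp

end

/-- **Parametrisation.** -/
theorem par {K : Type} [NontriviallyNormedField K] [CompleteSpace K] [CharZero K] [IsAlgClosed K]
    (G H : K[X]) (hG : G.Monic) (hH : H.natDegree ≤ G.natDegree)
    (hGH : ∀ ρ, G.eval ρ = 0 → H.eval ρ ≠ 0) (M : ℕ) (hMpos : 0 < M)
    (hMd : G.natDegree.factorial ∣ M) :
    ∃ x : Fin G.natDegree → K → K, (∀ j, AnalyticAt K (x j) 0) ∧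
      (∀ j, ∀ᶠ s in 𝓝 (0 : K), G.eval (x j s) = s ^ M * H.eval (x j s)) ∧
      (∀ᶠ s in 𝓝[≠] (0 : K), ∀ y, G.eval y = s ^ M * H.eval y → ∃ j, y = x j s) := by
  classical
  set m := G.natDegree with hm
  have hF0ne : G ≠ 0 := hG.ne_zero
  have hcard : Fintype.card G.roots = m := by
    rw [Multiset.card_coe, IsAlgClosed.card_roots_eq_natDegree]
  -- multiplicities
  set nu : K → ℕ := fun ρ => G.roots.count ρ with hnu
  have hnu_le : ∀ ρ, nu ρ ≤ m := by
    intro ρ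
    rw [hm, ← IsAlgClosed.card_roots_eq_natDegree]
    exact Multiset.count_le_card _ _
  have hroot : ∀ ρ, 0 < nu ρ → G.eval ρ = 0 := by
    intro ρ hρ
    have := Multiset.count_pos.1 hρ
    rwa [mem_roots hF0ne] at this
  -- branches
  have hbr : ∀ ρ : K, 0 < nu ρ → ∃ ψ h : K → K, AnalyticAt K ψ 0 ∧ ψ 0 = ρ ∧
      (∀ᶠ w in 𝓝 (0 : K), h (ψ w) = w) ∧
      ∀ᶠ w in 𝓝 (0 : K), G.eval (ψ w) = w ^ nu ρ * H.eval (ψ w) := by
    intro ρ hρ
    obtain ⟨G1, hG1, hG2⟩ := exists_eq_pow_rootMultiplicity_mul_and_not_dvd G hF0ne ρ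
    rw [← count_roots] at hG1
    refine branch G H ρ G1 (nu ρ) hρ hG1 ?_ (hGH ρ (hroot ρ hρ))
    intro h
    exact hG2 (dvd_iff_isRoot.2 h)
  choose! ψ h hψ1 hψ2 hψ3 hψ4 using hbr
  have hz : ∀ ρ : K, 0 < nu ρ → ∃ ζ : K, IsPrimitiveRoot ζ (nu ρ) := by
    intro ρ hρ
    have : NeZero (nu ρ) := ⟨hρ.ne'⟩
    have : NeZero ((nu ρ : ℕ) : K) := ⟨by exact_mod_cast hρ.ne'⟩
    exact HasEnoughRootsOfUnity.exists_primitiveRoot K (nu ρ)
  choose! ζ hζ using hz
  set e : Fin m ≃ G.roots := (Fintype.equivFinOfCardEq hcard).symm with he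
  have hdvd : ∀ ρ, 0 < nu ρ → nu ρ ∣ M := fun ρ hρ =>
    (Nat.dvd_factorial hρ (hnu_le ρ)).trans hMd
  have hpos : ∀ j : G.roots, 0 < nu (j : K) := fun j => Multiset.count_pos.2 (Multiset.coe_mem)
  have hq : ∀ j : G.roots, 0 < M / nu (j : K) := fun j =>
    Nat.div_pos (Nat.le_of_dvd hMpos (hdvd _ (hpos j))) (hpos j)
  have hqM : ∀ j : G.roots, (M / nu (j : K)) * nu (j : K) = M := fun j =>
    Nat.div_mul_cancel (hdvd _ (hpos j))
  -- the inner function
  set a : G.roots → K → K := fun j s => ζ (j : K) ^ (j.2 : ℕ) * s ^ (M / nu (j : K)) with ha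
  have ha0 : ∀ j, a j 0 = 0 := by
    intro j
    simp only [ha]
    rw [zero_pow (hq j).ne', mul_zero]
  have haan : ∀ j s, AnalyticAt K (a j) s := by
    intro j s
    simp only [ha]
    fun_prop
  have hatend : ∀ j, Tendsto (a j) (𝓝 0) (𝓝 0) := by
    intro j
    have := (haan j 0).continuousAt.tendsto
    rwa [ha0] at this
  have hapow : ∀ j s, a j s ^ nu (j : K) = s ^ M := by
    intro j s
    simp only [ha]
    rw [mul_pow, ← pow_mul, ← pow_mul, hqM j, mul_comm (j.2 : ℕ), pow_mul,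
      (hζ _ (hpos j)).pow_eq_one, one_pow, one_mul]
  set x : Fin m → K → K := fun i s => ψ (e i : K) (a (e i) s) with hx
  have hxan : ∀ i, AnalyticAt K (x i) 0 := by
    intro i
    refine AnalyticAt.fun_comp ?_ (haan (e i) 0)
    rw [ha0]
    exact hψ1 _ (hpos (e i))
  have hxeq : ∀ i, ∀ᶠ s in 𝓝 (0 : K), G.eval (x i s) = s ^ M * H.eval (x i s) := by
    intro i
    have h4 := (hatend (e i)).eventually (hψ4 _ (hpos (e i)))
    filter_upwards [h4] with s hs
    rw [hapow] at hs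
    exact hs
  have hxne : ∀ i j, i ≠ j → ¬ (∀ᶠ s in 𝓝 (0 : K), x i s = x j s) := by
    intro i j hij hcon
    replace hcon : ∀ᶠ s in 𝓝 (0 : K), ψ (e i : K) (a (e i) s) = ψ (e j : K) (a (e j) s) := hcon
    have h0 := hcon.self_of_nhds
    simp only [ha0] at h0
    rw [hψ2 _ (hpos (e i)), hψ2 _ (hpos (e j))] at h0
    -- same root
    have hne : e i ≠ e j := fun h => hij (e.injective h)
    generalize hx' : e i = x' at *
    generalize hy' : e j = y' at *
    obtain ⟨ρ, k⟩ := x'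
    obtain ⟨ρ', l⟩ := y'
    change ρ = ρ' at h0
    subst h0
    have hkl : (k : ℕ) ≠ (l : ℕ) := by
      intro hkl
      exact hne (by rw [Fin.ext hkl])
    have hρ : 0 < nu ρ := lt_of_le_of_lt (Nat.zero_le _) k.2
    have h5 := (hatend ⟨ρ, k⟩).eventually (hψ3 ρ hρ)
    have h6 := (hatend ⟨ρ, l⟩).eventually (hψ3 ρ hρ)
    have h7 : ∀ᶠ s in 𝓝 (0 : K), a ⟨ρ, k⟩ s = a ⟨ρ, l⟩ s := by
      filter_upwards [hcon, h5, h6] with s hs hs5 hs6
      rw [← hs5, ← hs6]
      exact congrArg (h ρ) hs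
    have h8 : ∃ s : K, s ≠ 0 ∧ a ⟨ρ, k⟩ s = a ⟨ρ, l⟩ s := by
      have h9 : ∀ᶠ s in 𝓝[≠] (0 : K), a ⟨ρ, k⟩ s = a ⟨ρ, l⟩ s := h7.filter_mono nhdsWithin_le_nhds
      obtain ⟨s, hs1, hs2⟩ := (h9.and self_mem_nhdsWithin).exists
      exact ⟨s, hs2, hs1⟩
    obtain ⟨s, hs0, hs⟩ := h8
    simp only [ha] at hs
    have hs' : ζ ρ ^ (k : ℕ) = ζ ρ ^ (l : ℕ) :=
      mul_right_cancel₀ (pow_ne_zero _ hs0) hs
    exact hkl ((hζ ρ hρ).pow_inj k.2 l.2 hs')
  refine ⟨x, hxan, hxeq, ?_⟩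
  -- all the solutions
  have hxdist : ∀ i j, i ≠ j → ∀ᶠ s in 𝓝[≠] (0 : K), x i s ≠ x j s := by
    intro i j hij
    have h1 : AnalyticAt K (fun s => x i s - x j s) 0 := (hxan i).sub (hxan j)
    rcases h1.eventually_eq_zero_or_eventually_ne_zero with h | h
    · exfalso
      apply hxne i j hij
      filter_upwards [h] with s hs
      exact sub_eq_zero.1 hs
    · filter_upwards [h] with s hs
      exact sub_ne_zero.1 hs
  have h1 : ∀ᶠ s in 𝓝[≠] (0 : K), ∀ i j : Fin m, i ≠ j → x i s ≠ x j s := by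
    rw [eventually_all]
    intro i
    rw [eventually_all]
    intro j
    by_cases hij : i = j
    · exact Eventually.of_forall fun s h => absurd hij h
    · filter_upwards [hxdist i j hij] with s hs _
      exact hs
  have h2 : ∀ᶠ s in 𝓝[≠] (0 : K), ∀ j : Fin m, G.eval (x j s) = s ^ M * H.eval (x j s) := by
    rw [eventually_all]
    intro j
    exact (hxeq j).filter_mono nhdsWithin_le_nhds
  have h3 : ∀ᶠ s in 𝓝[≠] (0 : K), (1 : K) - s ^ M * H.coeff m ≠ 0 := by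
    have hc : ContinuousAt (fun s : K => (1 : K) - s ^ M * H.coeff m) 0 := by fun_prop
    have h4 : (fun s : K => (1 : K) - s ^ M * H.coeff m) 0 ≠ 0 := by
      simp [hMpos.ne']
    exact (hc.eventually_ne h4).filter_mono nhdsWithin_le_nhds
  filter_upwards [h1, h2, h3] with s hs1 hs2 hs3 y hy
  set R : K[X] := G - C (s ^ M) * H with hR
  have hRc : R.coeff m = 1 - s ^ M * H.coeff m := by
    rw [hR, coeff_sub, coeff_C_mul, hm, hG.coeff_natDegree]
  have hRne : R ≠ 0 := by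
    intro h0
    rw [h0, coeff_zero] at hRc
    exact hs3 hRc.symm
  have hRd : R.natDegree ≤ m := by
    refine (natDegree_sub_le _ _).trans (max_le le_rfl ?_)
    exact (natDegree_C_mul_le _ _).trans hH
  by_contra hcon
  push Not at hcon
  have hyR : y ∈ R.roots.toFinset := by
    rw [Multiset.mem_toFinset, mem_roots hRne, IsRoot.def, hR, eval_sub, eval_mul, eval_C, hy,
      sub_self]
  have hxR : ∀ j, x j s ∈ R.roots.toFinset := by
    intro j
    rw [Multiset.mem_toFinset, mem_roots hRne, IsRoot.def, hR, eval_sub, eval_mul, eval_C, hs2,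
      sub_self]
  have hinj : Function.Injective (fun j : Fin m => x j s) := by
    intro i j hij
    by_contra hne
    exact hs1 i j hne hij
  have hsub : insert y (Finset.univ.image fun j : Fin m => x j s) ⊆ R.roots.toFinset := by
    intro z hz
    rw [Finset.mem_insert, Finset.mem_image] at hz
    rcases hz with rfl | ⟨j, _, rfl⟩
    · exact hyR
    · exact hxR j
  have hc1 := Finset.card_le_card hsub
  rw [Finset.card_insert_of_notMem, Finset.card_image_of_injective _ hinj, Finset.card_univ,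
    Fintype.card_fin] at hc1
  · have hc2 := Multiset.toFinset_card_le R.roots
    have hc3 := card_roots' R
    omega
  · intro h0
    rw [Finset.mem_image] at h0
    obtain ⟨j, _, hj⟩ := h0
    exact hcon j hj.symm

end Pool.Agent.Y789.SG
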