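import Mathlib
import Pool.Agent.Y789.SG.Core
import Pool.Agent.Y789.SG.Par

set_option autoImplicit false

/-!
# The local theorem at finite values of the parameter
-/

namespace Pool.Agent.Y789.SG

open Polynomial Filter Topology
open Pool.Agent.W289.SL Pool.Agent.W254.LF

/-- No solution tuple at the value `τ` of the parameter is degenerate. -/
def Good {p : ℕ} [Fact p.Prime] (L : ℂ_[p] → ℂ_[p]) {d : ℕ} (Δ : Dat ℂ_[p] d) (τ : ℂ_[p]) : Prop :=
  ∀ y : Fin d → ℂ_[p], (∀ j, (Δ.P j).eval (y j) = τ) →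
    (Function.Injective fun j => (Δ.pi j).eval (y j)) →
    (Matrix.of fun i j : Fin d => L ((Δ.U i j).eval (y j) / (Δ.V i j).eval (y j))).det ≠ 0

/-- passing from the uniformiser to the parameter -/
lemma of_unif {K : Type} [NontriviallyNormedField K] [IsAlgClosed K] {M : ℕ} (hM : 0 < M)
    {Q : K → Prop} (t₀ : K) (h : ∀ᶠ s in 𝓝[≠] (0 : K), Q (t₀ + s ^ M)) :
    ∀ᶠ t in 𝓝[≠] t₀, Q t := by
  rw [eventually_nhdsWithin_iff, Metric.eventually_nhds_iff] at h ⊢
  obtain ⟨ε, hε, hg⟩ := h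
  refine ⟨ε ^ M, pow_pos hε M, ?_⟩
  intro t ht htne
  obtain ⟨s, hs⟩ := IsAlgClosed.exists_pow_nat_eq (t - t₀) hM
  have hts : t₀ + s ^ M = t := by rw [hs]; ring
  have hsne : s ≠ 0 := by
    rintro rfl
    apply htne
    rw [zero_pow hM.ne'] at hs
    exact (sub_eq_zero.1 hs.symm)
  have hsd : dist s 0 < ε := by
    rw [dist_zero_right]
    by_contra hcon
    push Not at hcon
    rw [dist_eq_norm, ← hs, norm_pow] at ht
    exact absurd ht (not_lt.2 (pow_le_pow_left₀ hε.le hcon M))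
  have h1 := hg hsd hsne
  rwa [hts] at h1

lemma Germs.div {K : Type} [NontriviallyNormedField K] {E : Type} [Field E] [Algebra K E]
    {D0 : Derivation K E E} {T : (K → K) → E} (G : Germs K E D0 T) {f g : K → K}
    (hf : AnalyticAt K f 0) (hg : AnalyticAt K g 0) (hg0 : g 0 ≠ 0) :
    T (fun s => f s / g s) = T f / T g := by
  have hne : ∀ᶠ s in 𝓝 (0 : K), g s ≠ 0 := hg.continuousAt.eventually_ne hg0
  have hTg : T g ≠ 0 := fun h0 => hg0 (G.zero _ hg h0).self_of_nhds
  rw [eq_div_iff hTg, ← G.mul (fun s => f s / g s) g (hf.div hg hg0) hg]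
  apply G.congr
  filter_upwards [hne] with s hs
  field_simp

lemma Germs.par_ne {K : Type} [NontriviallyNormedField K] [CharZero K] {E : Type} [Field E]
    [Algebra K E] {D0 : Derivation K E E} {T : (K → K) → E} (G : Germs K E D0 T) :
    T (fun s => s) ≠ 0 := by
  intro h
  have := G.id_deriv
  rw [h, map_zero] at this
  exact zero_ne_one this

theorem loc_fin {p : ℕ} [Fact p.Prime] {L : ℂ_[p] → ℂ_[p]} (hL : IsIwasawaLog p L) {d : ℕ}
    (Δ : Dat ℂ_[p] d) (τ₀ : ℂ_[p]) (hτ : τ₀ ≠ 0) : ∀ᶠ τ in 𝓝[≠] τ₀, Good L Δ τ := by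
  classical
  obtain ⟨E, _, _, D0, T, G⟩ := exists_germs ℂ_[p]
  have hcz : CharZero E := charZero_of_injective_algebraMap (algebraMap ℂ_[p] E).injective
  set n : Fin d → ℕ := fun j => (Δ.P j).natDegree with hn
  set M : ℕ := ∏ j, (n j).factorial with hM
  have hMpos : 0 < M := Finset.prod_pos fun j _ => Nat.factorial_pos _
  set F : Fin d → ℂ_[p][X] := fun j => Δ.P j - C τ₀ with hF
  have hFd : ∀ j, (F j).natDegree = n j := fun j => natDegree_sub_C
  have hFm : ∀ j, (F j).Monic := by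
    intro j
    apply (Δ.Pm j).sub_of_left
    refine lt_of_le_of_lt degree_C_le ?_
    rw [degree_eq_natDegree (Δ.Pm j).ne_zero]
    exact_mod_cast Δ.Pd_pos j
  have hpar := fun j => par (F j) 1 (hFm j) (by rw [natDegree_one]; exact Nat.zero_le _)
    (fun ρ _ => by rw [eval_one]; exact one_ne_zero) M hMpos (by
      rw [hFd]; exact Finset.dvd_prod_of_mem (fun j => (n j).factorial) (Finset.mem_univ j))
  choose x hx1 hx2 hx3 using hpar
  have hFev : ∀ j y, (F j).eval y = (Δ.P j).eval y - τ₀ := by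
    intro j y
    rw [hF, eval_sub, eval_C]
  have hxP : ∀ j k, ∀ᶠ s in 𝓝 (0 : ℂ_[p]), (Δ.P j).eval (x j k s) = τ₀ + s ^ M := by
    intro j k
    filter_upwards [hx2 j k] with s hs
    rw [hFev, eval_one, mul_one] at hs
    rw [← hs]; ring
  have hx0 : ∀ i j k, (Δ.U i j).eval (x j k 0) ≠ 0 ∧ (Δ.V i j).eval (x j k 0) ≠ 0 := by
    intro i j k
    have h1 := (hxP j k).self_of_nhds
    rw [zero_pow hMpos.ne', add_zero, Dat.P, eval_prod] at h1
    have h2 : (Δ.pi j - C (Δ.b i)).eval (x j k 0) ≠ 0 := by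
      intro h0
      rw [Finset.prod_eq_zero (Finset.mem_univ i) h0] at h1
      exact hτ h1.symm
    rw [← Δ.fac, eval_mul] at h2
    exact ⟨left_ne_zero_of_mul h2, right_ne_zero_of_mul h2⟩
  have han : ∀ (R : ℂ_[p][X]) j k, AnalyticAt ℂ_[p] (fun s => R.eval (x j k s)) 0 := by
    intro R j k
    exact (AnalyticAt.aeval_polynomial (hx1 j k) R).congr (by simp [coe_aeval_eq_eval])
  have hkey : ∀ k : (j : Fin d) → Fin (F j).natDegree, ∀ᶠ s in 𝓝[≠] (0 : ℂ_[p]),
      (Function.Injective fun j => (Δ.pi j).eval (x j (k j) s)) →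
      (Matrix.of fun i j : Fin d =>
        L ((Δ.U i j).eval (x j (k j) s) / (Δ.V i j).eval (x j (k j) s))).det ≠ 0 := by
    intro k
    by_cases hk : Function.Injective fun j => aeval (T (x j (k j))) (Δ.pi j)
    · have h1 := core hL Δ G (fun j => T (x j (k j))) (T fun s => τ₀ + s ^ M) ?_ ?_ hk
        (fun i j s => (Δ.U i j).eval (x j (k j) s) / (Δ.V i j).eval (x j (k j) s)) ?_ ?_ ?_
      · filter_upwards [h1] with s hs _
        exact hs
      · have h2 : T (fun s => τ₀ + s ^ M) = algebraMap ℂ_[p] E τ₀ + T (fun s => s) ^ M := by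
          rw [G.add (fun _ => τ₀) (fun s => s ^ M) analyticAt_const (analyticAt_id.pow M), G.c,
            G.pow (f := fun s => s) analyticAt_id]
        rw [h2, map_add, Derivation.map_algebraMap, zero_add, Derivation.leibniz_pow, G.id_deriv,
          smul_eq_mul, mul_one, nsmul_eq_mul]
        exact mul_ne_zero (by exact_mod_cast hMpos.ne') (pow_ne_zero _ G.par_ne)
      · intro j
        rw [← G.eval (hx1 j (k j))]
        exact G.congr _ _ (hxP j (k j))
      · intro i j
        exact (han _ j (k j)).div (han _ j (k j)) (hx0 i j (k j)).2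
      · intro i j
        exact div_ne_zero (hx0 i j (k j)).1 (hx0 i j (k j)).2
      · intro i j
        rw [G.div (han (Δ.U i j) j (k j)) (han (Δ.V i j) j (k j)) (hx0 i j (k j)).2,
          G.eval (hx1 j (k j)), G.eval (hx1 j (k j))]
    · rw [Function.Injective] at hk
      push Not at hk
      obtain ⟨j, j', h1, h2⟩ := hk
      rw [← G.eval (hx1 j (k j)), ← G.eval (hx1 j' (k j'))] at h1
      have h3 := (G.inj (han _ j (k j)) (han _ j' (k j')) h1).filter_mono
        (nhdsWithin_le_nhds (s := {0}ᶜ))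
      filter_upwards [h3] with s hs hinj
      exact absurd (hinj hs) h2
  have h1 : ∀ᶠ s in 𝓝[≠] (0 : ℂ_[p]), Good L Δ (τ₀ + s ^ M) := by
    have h2 : ∀ᶠ s in 𝓝[≠] (0 : ℂ_[p]), ∀ k : (j : Fin d) → Fin (F j).natDegree,
      (Function.Injective fun j => (Δ.pi j).eval (x j (k j) s)) →
      (Matrix.of fun i j : Fin d =>
        L ((Δ.U i j).eval (x j (k j) s) / (Δ.V i j).eval (x j (k j) s))).det ≠ 0 :=
      eventually_all.2 hkey
    have h3 : ∀ᶠ s in 𝓝[≠] (0 : ℂ_[p]), ∀ j, ∀ y,
        (F j).eval y = s ^ M * (1 : ℂ_[p][X]).eval y → ∃ k, y = x j k s := eventually_all.2 hx3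
    filter_upwards [h2, h3] with s hs2 hs3 y hy hinj
    have h4 : ∀ j, ∃ k, y j = x j k s := by
      intro j
      apply hs3 j
      rw [hFev, hy, eval_one]
      ring
    choose k hk using h4
    have h5 := hs2 k
    simp only [← hk] at h5
    exact h5 hinj
  exact of_unif hMpos τ₀ h1

end Pool.Agent.Y789.SG
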