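import Mathlib
import Pool.Agent.Y789.SG.LocF

set_option autoImplicit false

/-!
# The local theorem at infinity
-/

namespace Pool.Agent.Y789.SG

open Polynomial Filter Topology
open Pool.Agent.W289.SL Pool.Agent.W254.LF

lemma aeval_rev {C F : Type} [Field C] [Field F] [Algebra C F] (P : C[X]) (x : F) (hx : x ≠ 0) :
    aeval x⁻¹ P = x⁻¹ ^ P.natDegree * aeval x P.reverse := by
  have : Invertible x⁻¹ := ⟨x, by rw [mul_inv_cancel₀ hx], by rw [inv_mul_cancel₀ hx]⟩
  have h1 := eval₂_reverse_mul_pow (algebraMap C F) x⁻¹ P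
  have h2 : (⅟(x⁻¹) : F) = x := by
    rw [invOf_eq_inv, inv_inv]
  rw [h2] at h1
  rw [aeval_def, aeval_def, ← h1, mul_comm]

lemma eval_rev {C : Type} [Field C] (P : C[X]) (x : C) (hx : x ≠ 0) :
    P.eval x⁻¹ = x⁻¹ ^ P.natDegree * P.reverse.eval x := by
  have h := aeval_rev P x hx
  simpa [coe_aeval_eq_eval] using h

lemma rev_zero {C : Type} [Field C] {P : C[X]} (hP : P.Monic) : P.reverse.eval 0 = 1 := by
  rw [← coeff_zero_eq_eval_zero, coeff_zero_reverse, hP.leadingCoeff]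

theorem loc_inf {p : ℕ} [Fact p.Prime] {L : ℂ_[p] → ℂ_[p]} (hL : IsIwasawaLog p L) {d : ℕ}
    (Δ : Dat ℂ_[p] d) (hU : ∀ i j, (Δ.U i j).Monic) (hV : ∀ i j, (Δ.V i j).Monic)
    (hUV : ∀ i j, (Δ.U i j).natDegree = (Δ.V i j).natDegree) :
    ∀ᶠ σ in 𝓝[≠] (0 : ℂ_[p]), Good L Δ σ⁻¹ := by
  classical
  obtain ⟨E, _, _, D0, T, G⟩ := exists_germs ℂ_[p]
  have hcz : CharZero E := charZero_of_injective_algebraMap (algebraMap ℂ_[p] E).injective
  set n : Fin d → ℕ := fun j => (Δ.P j).natDegree with hn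
  have hnpos : ∀ j, 0 < n j := Δ.Pd_pos
  set M : ℕ := ∏ j, (n j).factorial with hM
  have hMpos : 0 < M := Finset.prod_pos fun j _ => Nat.factorial_pos _
  set F : Fin d → ℂ_[p][X] := fun j => X ^ n j with hF
  have hFd : ∀ j, (F j).natDegree = n j := fun j => natDegree_X_pow _
  have hFm : ∀ j, (F j).Monic := fun j => monic_X_pow _
  have hFev : ∀ j y, (F j).eval y = y ^ n j := by
    intro j y
    rw [hF, eval_pow, eval_X]
  have hpar := fun j => par (F j) (Δ.P j).reverse (hFm j)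
    (by rw [hFd]; exact reverse_natDegree_le _)
    (fun ρ hρ => by
      rw [hFev] at hρ
      rw [pow_eq_zero_iff (hnpos j).ne'] at hρ
      rw [hρ, rev_zero (Δ.Pm j)]
      exact one_ne_zero) M hMpos (by
      rw [hFd]; exact Finset.dvd_prod_of_mem (fun j => (n j).factorial) (Finset.mem_univ j))
  choose x hx1 hx2 hx3 using hpar
  have hxP : ∀ j k, ∀ᶠ s in 𝓝 (0 : ℂ_[p]),
      x j k s ^ n j = s ^ M * (Δ.P j).reverse.eval (x j k s) := by
    intro j k
    filter_upwards [hx2 j k] with s hs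
    rwa [hFev] at hs
  have hx0 : ∀ j k, x j k 0 = 0 := by
    intro j k
    have h1 := (hxP j k).self_of_nhds
    rw [zero_pow hMpos.ne', zero_mul, pow_eq_zero_iff (hnpos j).ne'] at h1
    exact h1
  have hxr : ∀ j k, ∀ᶠ s in 𝓝 (0 : ℂ_[p]), (Δ.P j).reverse.eval (x j k s) ≠ 0 := by
    intro j k
    have hc : ContinuousAt (fun s => (Δ.P j).reverse.eval (x j k s)) 0 :=
      ((an_eval (Δ.P j).reverse (x j k 0)).comp (hx1 j k)).continuousAt
    apply hc.eventually_ne
    simp only [hx0, rev_zero (Δ.Pm j)]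
    exact one_ne_zero
  have hxne : ∀ j k, ∀ᶠ s in 𝓝[≠] (0 : ℂ_[p]), x j k s ≠ 0 := by
    intro j k
    have h1 := (hxP j k).filter_mono (nhdsWithin_le_nhds (s := {0}ᶜ))
    have h2 := (hxr j k).filter_mono (nhdsWithin_le_nhds (s := {0}ᶜ))
    filter_upwards [h1, h2, self_mem_nhdsWithin] with s hs1 hs2 hs3 h0
    rw [h0, zero_pow (hnpos j).ne'] at hs1
    rw [h0] at hs2
    exact mul_ne_zero (pow_ne_zero _ hs3) hs2 hs1.symm
  have hTx : ∀ j k, T (x j k) ≠ 0 := by
    intro j k h0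
    have h1 := (G.zero _ (hx1 j k) h0).filter_mono (nhdsWithin_le_nhds (s := {0}ᶜ))
    obtain ⟨s, hs1, hs2⟩ := (h1.and (hxne j k)).exists
    exact hs2 hs1
  have han : ∀ (R : ℂ_[p][X]) j k, AnalyticAt ℂ_[p] (fun s => R.eval (x j k s)) 0 := by
    intro R j k
    exact (AnalyticAt.aeval_polynomial (hx1 j k) R).congr (by simp [coe_aeval_eq_eval])
  -- the parameter
  have htE : ∀ j k, aeval (T (x j k))⁻¹ (Δ.P j) = (T fun s => s)⁻¹ ^ M := by
    intro j k
    rw [aeval_rev _ _ (hTx j k), ← G.eval (hx1 j k)]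
    have h1 := G.congr _ _ (hxP j k)
    rw [G.pow (hx1 j k), G.mul (fun s => s ^ M) _ (analyticAt_id.pow M) (han _ j k),
      G.pow (f := fun s => s) analyticAt_id] at h1
    have h2 : T (fun s => s) ^ M ≠ 0 := pow_ne_zero _ G.par_ne
    have h3 : T (x j k) ^ n j ≠ 0 := pow_ne_zero _ (hTx j k)
    rw [inv_pow, inv_pow]
    change (T (x j k) ^ n j)⁻¹ * _ = _
    rw [h1] at h3 ⊢
    rw [mul_inv, mul_assoc, inv_mul_cancel₀ (right_ne_zero_of_mul h3), mul_one]
  have hkey : ∀ k : (j : Fin d) → Fin (F j).natDegree, ∀ᶠ s in 𝓝[≠] (0 : ℂ_[p]),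
      (Function.Injective fun j => (Δ.pi j).eval (x j (k j) s)⁻¹) →
      (Matrix.of fun i j : Fin d =>
        L ((Δ.U i j).eval (x j (k j) s)⁻¹ / (Δ.V i j).eval (x j (k j) s)⁻¹)).det ≠ 0 := by
    intro k
    have hrev0 : ∀ (R : ℂ_[p][X]), R.Monic → ∀ j, R.reverse.eval (x j (k j) 0) ≠ 0 := by
      intro R hR j
      rw [hx0, rev_zero hR]
      exact one_ne_zero
    have hne : ∀ᶠ s in 𝓝[≠] (0 : ℂ_[p]), ∀ j, x j (k j) s ≠ 0 :=
      eventually_all.2 fun j => hxne j (k j)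
    by_cases hk : Function.Injective fun j => aeval (T (x j (k j)))⁻¹ (Δ.pi j)
    · have h1 := core hL Δ G (fun j => (T (x j (k j)))⁻¹) ((T fun s => s)⁻¹ ^ M) ?_ ?_ hk
        (fun i j s => (Δ.U i j).reverse.eval (x j (k j) s) /
          (Δ.V i j).reverse.eval (x j (k j) s)) ?_ ?_ ?_
      · filter_upwards [h1, hne] with s hs hs0 _
        have h2 : ∀ i j : Fin d, (Δ.U i j).eval (x j (k j) s)⁻¹ / (Δ.V i j).eval (x j (k j) s)⁻¹ =
            (Δ.U i j).reverse.eval (x j (k j) s) / (Δ.V i j).reverse.eval (x j (k j) s) := by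
          intro i j
          rw [eval_rev _ _ (hs0 j), eval_rev _ _ (hs0 j), hUV i j]
          exact mul_div_mul_left _ _ (pow_ne_zero _ (inv_ne_zero (hs0 j)))
        simp only [h2]
        exact hs
      · rw [Derivation.leibniz_pow, Derivation.leibniz_inv, G.id_deriv]
        simp only [smul_eq_mul, nsmul_eq_mul, mul_one]
        exact mul_ne_zero (by exact_mod_cast hMpos.ne') (mul_ne_zero
          (pow_ne_zero _ (inv_ne_zero G.par_ne))
          (neg_ne_zero.2 (pow_ne_zero _ (inv_ne_zero G.par_ne))))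
      · intro j
        exact htE j (k j)
      · intro i j
        exact (han _ j (k j)).div (han _ j (k j)) (hrev0 _ (hV i j) j)
      · intro i j
        exact div_ne_zero (hrev0 _ (hU i j) j) (hrev0 _ (hV i j) j)
      · intro i j
        rw [G.div (han (Δ.U i j).reverse j (k j)) (han (Δ.V i j).reverse j (k j))
          (hrev0 _ (hV i j) j), G.eval (hx1 j (k j)), G.eval (hx1 j (k j)),
          aeval_rev _ _ (hTx j (k j)), aeval_rev _ _ (hTx j (k j)), hUV i j]
        exact (mul_div_mul_left _ _ (pow_ne_zero _ (inv_ne_zero (hTx j (k j))))).symm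
    · rw [Function.Injective] at hk
      push Not at hk
      obtain ⟨j, j', h1, h2⟩ := hk
      rw [aeval_rev _ _ (hTx j (k j)), aeval_rev _ _ (hTx j' (k j')), inv_pow, inv_pow,
        inv_mul_eq_iff_eq_mul₀ (pow_ne_zero _ (hTx j (k j))), mul_left_comm,
        eq_inv_mul_iff_mul_eq₀ (pow_ne_zero _ (hTx j' (k j'))),
        ← G.eval (hx1 j (k j)), ← G.eval (hx1 j' (k j')), ← G.pow (hx1 j (k j)),
        ← G.pow (hx1 j' (k j'))] at h1
      rw [← G.mul (fun s => x j' (k j') s ^ (Δ.pi j').natDegree)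
          (fun s => (Δ.pi j).reverse.eval (x j (k j) s)) ((hx1 j' (k j')).pow _) (han _ j (k j)),
        ← G.mul (fun s => x j (k j) s ^ (Δ.pi j).natDegree)
          (fun s => (Δ.pi j').reverse.eval (x j' (k j') s)) ((hx1 j (k j)).pow _)
          (han _ j' (k j'))] at h1
      have h3 := (G.inj (((hx1 j' (k j')).pow _).mul (han _ j (k j)))
        (((hx1 j (k j)).pow _).mul (han _ j' (k j'))) h1).filter_mono
        (nhdsWithin_le_nhds (s := {0}ᶜ))
      filter_upwards [h3, hne] with s hs hs0 hinj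
      refine absurd (hinj ?_) h2
      have h4 : x j' (k j') s ^ (Δ.pi j').natDegree * (Δ.pi j).reverse.eval (x j (k j) s) =
          x j (k j) s ^ (Δ.pi j).natDegree * (Δ.pi j').reverse.eval (x j' (k j') s) := hs
      change (Δ.pi j).eval (x j (k j) s)⁻¹ = (Δ.pi j').eval (x j' (k j') s)⁻¹
      rw [eval_rev _ _ (hs0 j), eval_rev _ _ (hs0 j'), inv_pow, inv_pow,
        inv_mul_eq_iff_eq_mul₀ (pow_ne_zero _ (hs0 j)), mul_left_comm,
        eq_inv_mul_iff_mul_eq₀ (pow_ne_zero _ (hs0 j'))]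
      exact h4
  have h1 : ∀ᶠ s in 𝓝[≠] (0 : ℂ_[p]), Good L Δ (0 + s ^ M)⁻¹ := by
    have h2 : ∀ᶠ s in 𝓝[≠] (0 : ℂ_[p]), ∀ k : (j : Fin d) → Fin (F j).natDegree,
      (Function.Injective fun j => (Δ.pi j).eval (x j (k j) s)⁻¹) →
      (Matrix.of fun i j : Fin d =>
        L ((Δ.U i j).eval (x j (k j) s)⁻¹ / (Δ.V i j).eval (x j (k j) s)⁻¹)).det ≠ 0 :=
      eventually_all.2 hkey
    have h3 : ∀ᶠ s in 𝓝[≠] (0 : ℂ_[p]), ∀ j, ∀ y,
        (F j).eval y = s ^ M * (Δ.P j).reverse.eval y → ∃ k, y = x j k s := eventually_all.2 hx3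
    have h4 : ∀ᶠ s in 𝓝[≠] (0 : ℂ_[p]), ∀ j, (Δ.P j).eval 0 * s ^ M ≠ 1 := by
      rw [eventually_all]
      intro j
      have hc : ContinuousAt (fun s : ℂ_[p] => (Δ.P j).eval 0 * s ^ M) 0 := by fun_prop
      have h5 : (fun s : ℂ_[p] => (Δ.P j).eval 0 * s ^ M) 0 ≠ 1 := by
        simp [hMpos.ne']
      exact (hc.eventually_ne h5).filter_mono nhdsWithin_le_nhds
    filter_upwards [h2, h3, h4, self_mem_nhdsWithin] with s hs2 hs3 hs4 hs5 y hy hinj
    rw [zero_add] at hy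
    have hsM : s ^ M ≠ 0 := pow_ne_zero _ hs5
    have hy0 : ∀ j, y j ≠ 0 := by
      intro j h0
      have h6 := hy j
      rw [h0] at h6
      apply hs4 j
      rw [h6, inv_mul_cancel₀ hsM]
    have h6 : ∀ j, ∃ k, (y j)⁻¹ = x j k s := by
      intro j
      apply hs3 j
      have h7 := hy j
      have h8 := eval_rev (Δ.P j) (y j)⁻¹ (inv_ne_zero (hy0 j))
      rw [inv_inv, h7] at h8
      rw [hFev, inv_pow]
      have h9 : y j ^ n j ≠ 0 := pow_ne_zero _ (hy0 j)
      rw [inv_eq_iff_eq_inv, mul_inv]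
      have h10 : (Δ.P j).reverse.eval (y j)⁻¹ ≠ 0 := by
        intro h0
        rw [h0, mul_zero] at h8
        exact inv_ne_zero hsM h8
      rw [h8]
      change y j ^ n j = y j ^ n j * _ * _
      rw [mul_assoc, mul_inv_cancel₀ h10, mul_one]
    choose k hk using h6
    have h7 := hs2 k
    simp only [← hk, inv_inv] at h7
    exact h7 hinj
  exact of_unif (Q := fun t => Good L Δ t⁻¹) hMpos 0 h1

end Pool.Agent.Y789.SG
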