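import Mathlib
import Pool.Agent.Y789.SG.LocI

set_option autoImplicit false

/-!
# Finiteness of the exceptional set
-/

namespace Pool.Agent.Y789.SG

open Polynomial Filter Topology
open Pool.Agent.W289.SL Pool.Agent.W254.LF

lemma acc_int (p : ℕ) [Fact p.Prime] (S : Set ℤ) (hS : S.Infinite) :
    ∃ t₀ : ℂ_[p], ∃ᶠ t in 𝓝[≠] t₀, t ∈ (fun x : ℤ => (x : ℂ_[p])) '' S := by
  let g : ℤ_[p] → ℂ_[p] := fun c => algebraMap ℚ_[p] ℂ_[p] (c : ℚ_[p])
  have halg : Continuous (algebraMap ℚ_[p] ℂ_[p]) := continuous_algebraMap ℚ_[p] ℂ_[p]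
  have hg : Continuous g := halg.comp continuous_subtype_val
  have hK : IsCompact (Set.range g) := isCompact_range hg
  have hsub : (fun x : ℤ => (x : ℂ_[p])) '' S ⊆ Set.range g := by
    rintro _ ⟨x, -, rfl⟩
    refine ⟨(x : ℤ_[p]), ?_⟩
    show algebraMap ℚ_[p] ℂ_[p] (((x : ℤ_[p])) : ℚ_[p]) = (x : ℂ_[p])
    rw [PadicInt.coe_intCast, map_intCast]
  have hinj : Set.InjOn (fun x : ℤ => (x : ℂ_[p])) S := by
    intro x _ y _ h
    exact Int.cast_injective h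
  obtain ⟨t₀, -, ht₀⟩ := (hS.image hinj).exists_accPt_of_subset_isCompact hK hsub
  exact ⟨t₀, accPt_iff_frequently_nhdsNE.mp ht₀⟩

theorem glob {p : ℕ} [Fact p.Prime] {L : ℂ_[p] → ℂ_[p]} (hL : IsIwasawaLog p L) {d : ℕ}
    (Δ : Dat ℂ_[p] d) (hU : ∀ i j, (Δ.U i j).Monic) (hV : ∀ i j, (Δ.V i j).Monic)
    (hUV : ∀ i j, (Δ.U i j).natDegree = (Δ.V i j).natDegree) (N : ℕ) (hN : 0 < N) :
    {t : ℤ | ¬ Good L Δ (((t : ℂ_[p]) ^ N)⁻¹)}.Finite := by
  by_contra hcon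
  have hinf : {t : ℤ | ¬ Good L Δ (((t : ℂ_[p]) ^ N)⁻¹)}.Infinite := hcon
  obtain ⟨t₀, ht₀⟩ := acc_int p _ hinf
  have hfreq : ∃ᶠ t in 𝓝[≠] t₀, ¬ Good L Δ ((t ^ N)⁻¹) := by
    refine ht₀.mono ?_
    rintro _ ⟨x, hx, rfl⟩
    exact hx
  apply hfreq
  simp only [not_not]
  by_cases h0 : t₀ = 0
  · subst h0
    have h1 := loc_inf hL Δ hU hV hUV
    have h2 : Tendsto (fun t : ℂ_[p] => t ^ N) (𝓝[≠] 0) (𝓝[≠] 0) := by
      rw [tendsto_nhdsWithin_iff]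
      refine ⟨?_, ?_⟩
      · have hc : ContinuousAt (fun t : ℂ_[p] => t ^ N) 0 := by fun_prop
        have h3 := hc.tendsto
        simp only [zero_pow hN.ne'] at h3
        exact h3.mono_left nhdsWithin_le_nhds
      · filter_upwards [self_mem_nhdsWithin] with t ht
        exact pow_ne_zero _ ht
    exact h2.eventually h1
  · have h1 := loc_fin hL Δ ((t₀ ^ N)⁻¹) (inv_ne_zero (pow_ne_zero _ h0))
    have h2 : Tendsto (fun t : ℂ_[p] => (t ^ N)⁻¹) (𝓝[≠] t₀) (𝓝[≠] ((t₀ ^ N)⁻¹)) := by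
      rw [tendsto_nhdsWithin_iff]
      refine ⟨?_, ?_⟩
      · have hc : ContinuousAt (fun t : ℂ_[p] => (t ^ N)⁻¹) t₀ :=
          ContinuousAt.inv₀ (by fun_prop) (pow_ne_zero _ h0)
        exact hc.tendsto.mono_left nhdsWithin_le_nhds
      · have hfin : {t : ℂ_[p] | t ^ N = t₀ ^ N}.Finite := by
          classical
          have h3 : (X ^ N - C (t₀ ^ N) : ℂ_[p][X]) ≠ 0 := X_pow_sub_C_ne_zero hN _
          refine (X ^ N - C (t₀ ^ N) : ℂ_[p][X]).roots.toFinset.finite_toSet.subset ?_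
          intro t ht
          simp only [Finset.mem_coe, Multiset.mem_toFinset]
          rw [mem_roots h3, IsRoot.def, eval_sub, eval_pow, eval_X, eval_C]
          exact sub_eq_zero.2 ht
        have h4 : ∀ᶠ t in 𝓝[≠] t₀, t ∉ {t : ℂ_[p] | t ^ N = t₀ ^ N} \ {t₀} := by
          have h5 : ({t : ℂ_[p] | t ^ N = t₀ ^ N} \ {t₀}).Finite := hfin.subset Set.sdiff_subset
          have h6 : ({t : ℂ_[p] | t ^ N = t₀ ^ N} \ {t₀})ᶜ ∈ 𝓝 t₀ :=
            h5.isClosed.isOpen_compl.mem_nhds (by simp)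
          exact mem_nhdsWithin_of_mem_nhds h6
        filter_upwards [h4, self_mem_nhdsWithin] with t ht1 ht2 h5
        apply ht1
        exact ⟨inv_injective h5, ht2⟩
    exact h2.eventually h1

end Pool.Agent.Y789.SG
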