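import Mathlib
import Pool.Agent.Y789.SG.Glob
import Pool.Agent.W289.SL.LogEx

set_option autoImplicit false

/-!
# The data attached to square roots
-/

namespace Pool.Agent.Y789.SG

open Polynomial
open Pool.Agent.W289.SL

section

variable {C : Type} [Field C] [CharZero C] {d : ℕ}

lemma fac_aux (x a b : C) (h : b - a = x ^ 2) :
    (X - Polynomial.C x) * (X + Polynomial.C x) = (X ^ 2 + Polynomial.C a) - Polynomial.C b := by
  have h1 : Polynomial.C b = Polynomial.C a + Polynomial.C x ^ 2 := by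
    rw [← Polynomial.C_pow, ← h, ← Polynomial.C_add]
    congr 1
    ring
  rw [h1]
  ring

lemma sep_aux (a : C) (b : Fin d → C) (hb : Function.Injective b) (hab : ∀ i, b i - a ≠ 0) :
    (∏ i, ((X ^ 2 + Polynomial.C a) - Polynomial.C (b i))).Separable := by
  apply separable_prod'
  · intro i _ j _ hij
    have h1 : (X ^ 2 + Polynomial.C a) - Polynomial.C (b i) =
      ((X ^ 2 + Polynomial.C a) - Polynomial.C (b j)) + Polynomial.C (b j - b i) := by
      rw [Polynomial.C_sub]; ring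
    rw [h1]
    have h2 : b j - b i ≠ 0 := sub_ne_zero.2 fun h => hij (hb h.symm)
    refine ⟨Polynomial.C (b j - b i)⁻¹, -Polynomial.C (b j - b i)⁻¹, ?_⟩
    have h3 : Polynomial.C (b j - b i)⁻¹ * Polynomial.C (b j - b i) = 1 := by
      rw [← Polynomial.C_mul, inv_mul_cancel₀ h2, Polynomial.C_1]
    linear_combination h3
  · intro i _
    have h1 : (X ^ 2 + Polynomial.C a) - Polynomial.C (b i) = X ^ 2 - Polynomial.C (b i - a) := by
      rw [Polynomial.C_sub]; ring
    rw [h1]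
    exact separable_X_pow_sub_C _ (by norm_num) (hab i)

/-- the data -/
noncomputable def dk (a : Fin d → C) (b : Fin d → C) (hb : Function.Injective b)
    (β : Fin d → Fin d → C) (hβ : ∀ i j, b i - a j = β i j ^ 2) (hβ0 : ∀ i j, β i j ≠ 0) :
    Dat C d where
  b := b
  binj := hb
  pi j := X ^ 2 + Polynomial.C (a j)
  U i j := X - Polynomial.C (β i j)
  V i j := X + Polynomial.C (β i j)
  pim j := monic_X_pow_add_C _ (by norm_num)
  pid j := by rw [natDegree_X_pow_add_C]; norm_num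
  fac i j := fac_aux _ _ _ (hβ i j)
  sep j := sep_aux _ _ hb fun i => by rw [hβ i j]; exact pow_ne_zero _ (hβ0 i j)

end

/-- the exceptional set, for given restrictions to the quadratic field -/
theorem exc_one (p : ℕ) [Fact p.Prime] {d : ℕ} (hd : 0 < d) (b : Fin d → ℤ)
    (hb : Function.Injective b) (a : Fin d → ℂ_[p]) (β : Fin d → Fin d → ℂ_[p])
    (hβ : ∀ i j, (b i : ℂ_[p]) - a j = β i j ^ 2) (hβ0 : ∀ i j, β i j ≠ 0)
    (L : ℂ_[p] → ℂ_[p]) (hL : IsIwasawaLog p L) :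
    ∃ S : Set ℤ, S.Finite ∧ ∀ t : ℤ, t ∉ S → ∀ y : Fin d → ℂ_[p],
      (∀ j, (∏ i, (y j ^ 2 + a j - b i)) * (t : ℂ_[p]) ^ (2 * d) = 1) →
      (Function.Injective fun j => y j ^ 2 + a j) →
      (Matrix.of fun i j => L ((y j - β i j) / (y j + β i j))).det ≠ 0 := by
  have hb' : Function.Injective fun i => (b i : ℂ_[p]) := fun i j h => hb (Int.cast_injective h)
  set Δ : Dat ℂ_[p] d := dk a (fun i => (b i : ℂ_[p])) hb' β hβ hβ0 with hΔ
  have hfin := glob hL Δ (fun i j => monic_X_sub_C _) (fun i j => monic_X_add_C _)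
    (fun i j => by
      change (X - Polynomial.C (β i j)).natDegree = (X + Polynomial.C (β i j)).natDegree
      rw [natDegree_X_sub_C, natDegree_X_add_C]) (2 * d) (by omega)
  refine ⟨_, hfin, ?_⟩
  intro t ht y hy hinj
  rw [Set.mem_ofPred_eq, not_not] at ht
  have h1 := ht y ?_ ?_
  · simpa [hΔ, dk] using h1
  · intro j
    have h2 : (Δ.P j).eval (y j) = ∏ i, (y j ^ 2 + a j - b i) := by
      simp [hΔ, dk, Dat.P, eval_prod]
    rw [h2]
    exact eq_inv_of_mul_eq_one_left (hy j)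
  · intro j j' h
    apply hinj
    simpa [hΔ, dk] using h

/-- the exceptional set -/
theorem exc_set (p : ℕ) [Fact p.Prime] (k : Type) [Field k] [NumberField k] {d : ℕ} (hd : 0 < d)
    (b : Fin d → ℤ) (hb : Function.Injective b) (a : k) (β : Fin d → k)
    (hβ : ∀ i, (b i : k) - a = β i ^ 2) (hβ0 : ∀ i, β i ≠ 0)
    (L : ℂ_[p] → ℂ_[p]) (hL : IsIwasawaLog p L) :
    ∃ S : Set ℤ, S.Finite ∧ ∀ t : ℤ, t ∉ S → ∀ (ι : Fin d → (k →+* ℂ_[p])) (y : Fin d → ℂ_[p]),
      (∀ j, (∏ i, (y j ^ 2 + ι j a - b i)) * (t : ℂ_[p]) ^ (2 * d) = 1) →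
      (Function.Injective fun j => y j ^ 2 + ι j a) →
      (Matrix.of fun i j => L ((y j - ι j (β i)) / (y j + ι j (β i)))).det ≠ 0 := by
  have h1 : ∀ ι : Fin d → (k →+* ℂ_[p]), ∃ S : Set ℤ, S.Finite ∧ ∀ t : ℤ, t ∉ S →
      ∀ y : Fin d → ℂ_[p], (∀ j, (∏ i, (y j ^ 2 + ι j a - b i)) * (t : ℂ_[p]) ^ (2 * d) = 1) →
      (Function.Injective fun j => y j ^ 2 + ι j a) →
      (Matrix.of fun i j => L ((y j - ι j (β i)) / (y j + ι j (β i)))).det ≠ 0 := by
    intro ι
    apply exc_one p hd b hb (fun j => ι j a) (fun i j => ι j (β i)) _ _ L hL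
    · intro i j
      have := congrArg (ι j) (hβ i)
      simpa using this
    · intro i j
      rw [Ne, map_eq_zero]
      exact hβ0 i
  choose S hS hS' using h1
  refine ⟨⋃ ι, S ι, Set.finite_iUnion hS, ?_⟩
  intro t ht ι
  apply hS' ι t
  intro h
  exact ht (Set.mem_iUnion.2 ⟨ι, h⟩)

end Pool.Agent.Y789.SG
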