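import Mathlib
import Pool.Agent.W289.SL.Emb

set_option autoImplicit false

/-!
# The Iwasawa logarithm is unique on units
-/

namespace Pool.Agent.Y789.SG

open NumberField Pool.Agent.W289.SL

variable {p : ℕ} [Fact p.Prime]

/-- a power of a unit is close to one -/
lemma unit_pow_close {H : Type} [Field H] [NumberField H] (u : (𝓞 H)ˣ) :
    ∃ M : ℕ, 0 < M ∧ ∃ z : 𝓞 H, ((u ^ M : (𝓞 H)ˣ) : 𝓞 H) = 1 + (p : 𝓞 H) * z := by
  have hp0 : (p : 𝓞 H) ≠ 0 := by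
    have := (Fact.out : p.Prime).ne_zero
    exact_mod_cast this
  have hI : Ideal.span {(p : 𝓞 H)} ≠ ⊥ := by
    rw [Ne, Ideal.span_singleton_eq_bot]
    exact hp0
  have hfin : Finite (𝓞 H ⧸ Ideal.span {(p : 𝓞 H)}) :=
    Ideal.finiteQuotientOfFreeOfNeBot _ hI
  set v : (𝓞 H ⧸ Ideal.span {(p : 𝓞 H)})ˣ :=
    Units.map (Ideal.Quotient.mk (Ideal.span {(p : 𝓞 H)})).toMonoidHom u with hv
  have hfo : IsOfFinOrder v := isOfFinOrder_of_finite v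
  refine ⟨orderOf v, hfo.orderOf_pos, ?_⟩
  have h1 : v ^ orderOf v = 1 := pow_orderOf_eq_one v
  have h2 : Ideal.Quotient.mk (Ideal.span {(p : 𝓞 H)}) (((u ^ orderOf v : (𝓞 H)ˣ) : 𝓞 H)) =
      Ideal.Quotient.mk (Ideal.span {(p : 𝓞 H)}) 1 := by
    have h3 := congrArg (fun w : (𝓞 H ⧸ Ideal.span {(p : 𝓞 H)})ˣ =>
      (w : 𝓞 H ⧸ Ideal.span {(p : 𝓞 H)})) h1
    rw [map_one, Units.val_pow_eq_pow_val, map_pow]
    exact h3
  rw [Ideal.Quotient.eq, Ideal.mem_span_singleton] at h2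
  obtain ⟨z, hz⟩ := h2
  exact ⟨z, by rw [← hz]; ring⟩

lemma log_unique {L L' : ℂ_[p] → ℂ_[p]} (hL : IsIwasawaLog p L) (hL' : IsIwasawaLog p L')
    {H : Type} [Field H] [NumberField H] (σ : H →+* ℂ_[p]) (u : (𝓞 H)ˣ) :
    L (σ (u : 𝓞 H)) = L' (σ (u : 𝓞 H)) := by
  obtain ⟨M, hM, z, hz⟩ := unit_pow_close (p := p) u
  have hu0 : σ (u : 𝓞 H) ≠ 0 := by
    rw [Ne, map_eq_zero]
    simp
  have h1 : σ (u : 𝓞 H) ^ M = 1 + (p : ℂ_[p]) * σ z := by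
    have h2 := congrArg (fun x : 𝓞 H => σ (x : H)) hz
    simp only [map_add, map_mul, map_one, map_natCast, Units.val_pow_eq_pow_val, map_pow] at h2
    exact h2
  have h2 : ‖(p : ℂ_[p]) * σ z‖ < 1 := by
    rw [norm_mul, norm_p]
    have h3 := norm_emb_le σ z
    have h4 : (p : ℝ)⁻¹ < 1 := inv_lt_one_of_one_lt₀ (by exact_mod_cast (Fact.out : p.Prime).one_lt)
    have h5 : 0 < (p : ℝ)⁻¹ := by
      have := (Fact.out : p.Prime).pos
      positivity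
    nlinarith [norm_nonneg (σ z)]
  have h3 : (M : ℂ_[p]) * L (σ (u : 𝓞 H)) = (M : ℂ_[p]) * L' (σ (u : 𝓞 H)) := by
    rw [← hL.pow hu0, ← hL'.pow hu0, h1]
    exact (hL.ser _ h2).unique (hL'.ser _ h2)
  exact mul_left_cancel₀ (by exact_mod_cast hM.ne') h3

end Pool.Agent.Y789.SG
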