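import Mathlib

set_option autoImplicit false

/-!
# The element `w - a t ^ 2` is not a square
-/

namespace Pool.Agent.Y789.SG

open NumberField Polynomial

section

variable {k : Type} [Field k] [NumberField k] (hk2 : Module.finrank ℚ k = 2) [IsTotallyComplex k]

include hk2 in
lemma place_sq (v : InfinitePlace k) (x : k) : v x ^ 2 = |(Algebra.norm ℚ x : ℝ)| := by
  classical
  have h1 := InfinitePlace.prod_eq_abs_norm x
  have h2 := IsTotallyComplex.finrank k
  rw [hk2] at h2
  have h3 := InfinitePlace.card_eq_nrRealPlaces_add_nrComplexPlaces k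
  have h4 := IsTotallyComplex.nrRealPlaces_eq_zero k
  have h5 : Fintype.card (InfinitePlace k) = 1 := by omega
  obtain ⟨v0, hv0⟩ := Fintype.card_eq_one_iff.1 h5
  have h6 : (Finset.univ : Finset (InfinitePlace k)) = {v} := by
    ext u
    simp [hv0 u, hv0 v]
  rw [h6, Finset.prod_singleton] at h1
  have h7 : v.mult = 2 := InfinitePlace.mult_isComplex ⟨v, IsTotallyComplex.isComplex v⟩
  rw [h7] at h1
  rw [h1]
  push_cast
  rfl

include hk2 in
lemma place_unit (v : InfinitePlace k) (u : (𝓞 k)ˣ) : v ((u : 𝓞 k) : k) = 1 := by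
  have h1 := place_sq hk2 v ((u : 𝓞 k) : k)
  have h2 : |(Algebra.norm ℚ ((u : 𝓞 k) : k) : ℝ)| = 1 := by
    have h3 := NumberField.isUnit_iff_norm.1 u.isUnit
    rw [RingOfIntegers.coe_norm] at h3
    exact_mod_cast congrArg (fun x : ℚ => (x : ℝ)) h3
  rw [h2] at h1
  have h3 : 0 ≤ v ((u : 𝓞 k) : k) := apply_nonneg v _
  nlinarith

include hk2 in
lemma place_ge (v : InfinitePlace k) (z : 𝓞 k) (hz : z ≠ 0) : 1 ≤ v (z : k) := by
  have h1 := place_sq hk2 v (z : k)
  have h2 : 1 ≤ |(Algebra.norm ℚ (z : k) : ℝ)| := by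
    have h3 : Algebra.norm ℚ (z : k) = ((Algebra.norm ℤ z : ℤ) : ℚ) := by
      rw [Algebra.coe_norm_int]
    rw [h3]
    have h4 : Algebra.norm ℤ z ≠ 0 := Algebra.norm_ne_zero_iff.2 hz
    have h5 : 1 ≤ |Algebra.norm ℤ z| := Int.one_le_abs h4
    exact_mod_cast h5
  have h3 : 0 ≤ v (z : k) := apply_nonneg v _
  nlinarith

include hk2 in
/-- units congruent modulo `t` are equal -/
lemma units_eq (t : ℤ) (ht : 3 ≤ |t|) (u u' : 𝓞 k) (hu : IsUnit u) (hu' : IsUnit u')
    (h : (t : 𝓞 k) ∣ u - u') : u = u' := by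
  obtain ⟨z, hz⟩ := h
  by_contra hne
  have hz0 : z ≠ 0 := by
    rintro rfl
    rw [mul_zero, sub_eq_zero] at hz
    exact hne hz
  obtain ⟨U, rfl⟩ := hu
  obtain ⟨U', rfl⟩ := hu'
  have v : InfinitePlace k := Classical.arbitrary _
  have h1 := place_unit hk2 v U
  have h2 := place_unit hk2 v U'
  have h3 := place_ge hk2 v z hz0
  have h4 : ((U : 𝓞 k) : k) - ((U' : 𝓞 k) : k) = (t : k) * (z : k) := by
    have := congrArg (algebraMap (𝓞 k) k) hz
    simpa using this
  have h5 : v (((U : 𝓞 k) : k) - ((U' : 𝓞 k) : k)) ≤ 2 := by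
    have h6 : v (((U : 𝓞 k) : k) - ((U' : 𝓞 k) : k)) ≤
        v ((U : 𝓞 k) : k) + v ((U' : 𝓞 k) : k) := by
      rw [← InfinitePlace.norm_embedding_eq, ← InfinitePlace.norm_embedding_eq,
        ← InfinitePlace.norm_embedding_eq, map_sub]
      exact norm_sub_le _ _
    linarith
  rw [h4, map_mul] at h5
  have h6 : v (t : k) = |(t : ℝ)| := by
    rw [← InfinitePlace.norm_embedding_eq, map_intCast]
    simp
  rw [h6] at h5
  have h7 : (3 : ℝ) ≤ |(t : ℝ)| := by exact_mod_cast ht
  nlinarith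

include hk2 in
theorem nonsq {K : Type} [Field K] [NumberField K] [Algebra k K] {d : ℕ} (hd : 0 < d)
    (hKk : Module.finrank k K = d) (b : Fin d → ℤ) (hb : Function.Injective b) (a : 𝓞 k)
    (β : Fin d → 𝓞 k) (hβ : ∀ i, (b i : 𝓞 k) - a = β i ^ 2) (hβ0 : ∀ i, β i ≠ 0)
    (t : ℤ) (ht : 3 ≤ |t|) (w : K) (hw : ∏ i, (w - (b i : K) * (t : K) ^ 2) = 1) :
    ¬ IsSquare (w - algebraMap k K a * (t : K) ^ 2) := by
  rintro ⟨γ, hγ⟩
  have ht0 : (t : 𝓞 k) ≠ 0 := by
    have : t ≠ 0 := by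
      rintro rfl
      simp at ht
    exact_mod_cast this
  set g : (𝓞 k)[X] := ∏ i, (X ^ 2 - C (β i ^ 2 * (t : 𝓞 k) ^ 2)) - 1 with hg
  have hgγ : aeval γ g = 0 := by
    rw [hg, map_sub, map_one, map_prod, sub_eq_zero, ← hw]
    refine Finset.prod_congr rfl fun i _ => ?_
    rw [map_sub, map_pow, aeval_X, aeval_C, ← hβ i, map_mul, map_sub, map_pow, map_intCast,
      map_intCast]
    have h1 : algebraMap (𝓞 k) K a = algebraMap k K a := rfl
    rw [h1]
    linear_combination -hγ
  have hgm : g.Monic := by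
    rw [hg]
    have h1 : (∏ i, (X ^ 2 - C (β i ^ 2 * (t : 𝓞 k) ^ 2))).Monic :=
      monic_prod_of_monic _ _ fun i _ => monic_X_pow_sub_C _ (by norm_num)
    apply h1.sub_of_left
    rw [degree_one, degree_eq_natDegree h1.ne_zero,
      natDegree_prod_of_monic _ _ fun i _ => monic_X_pow_sub_C _ (by norm_num),
      Finset.sum_congr rfl fun i _ => natDegree_X_pow_sub_C]
    simp only [Finset.sum_const, Finset.card_univ, Fintype.card_fin, smul_eq_mul]
    exact_mod_cast (by omega : 0 < d * 2)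
  have hint : IsIntegral (𝓞 k) γ := ⟨g, hgm, hgγ⟩
  set m : (𝓞 k)[X] := minpoly (𝓞 k) γ with hm
  have hmm : m.Monic := minpoly.monic hint
  have hmg : m ∣ g := minpoly.isIntegrallyClosed_dvd hint hgγ
  have hmd : m.natDegree ≤ d := by
    have h1 : minpoly k γ = m.map (algebraMap (𝓞 k) k) :=
      minpoly.isIntegrallyClosed_eq_field_fractions' k hint
    have h2 : (minpoly k γ).natDegree ≤ Module.finrank k K := by
      have : FiniteDimensional k K := Module.finite_of_finrank_pos (by omega)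
      exact minpoly.natDegree_le γ
    rw [h1, hmm.natDegree_map, hKk] at h2
    exact h2
  have hmpos : 0 < m.natDegree := minpoly.natDegree_pos hint
  have hunit : ∀ x : 𝓞 k, (∃ i, x ^ 2 = β i ^ 2 * (t : 𝓞 k) ^ 2) → IsUnit (m.eval x) := by
    rintro x ⟨i, hi⟩
    obtain ⟨q, hq⟩ := hmg
    have h1 : g.eval x = -1 := by
      rw [hg, eval_sub, eval_one, eval_prod, Finset.prod_eq_zero (Finset.mem_univ i), zero_sub]
      simp [hi]
    rw [hq, eval_mul] at h1
    refine IsUnit.of_mul_eq_one (-q.eval x) ?_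
    linear_combination -h1
  set f : Fin d ⊕ Fin d → 𝓞 k := Sum.elim (fun i => β i * t) (fun i => -(β i * t)) with hf
  have hfsq : ∀ s, ∃ i, (f s) ^ 2 = β i ^ 2 * (t : 𝓞 k) ^ 2 := by
    rintro (i | i)
    · exact ⟨i, by simp only [hf, Sum.elim_inl]; ring⟩
    · exact ⟨i, by simp only [hf, Sum.elim_inr]; ring⟩
  have hfdvd : ∀ s, (t : 𝓞 k) ∣ f s := by
    rintro (i | i)
    · exact ⟨β i, by simp only [hf, Sum.elim_inl]; ring⟩
    · exact ⟨-β i, by simp only [hf, Sum.elim_inr]; ring⟩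
  have hβinj : ∀ i j, β i ^ 2 = β j ^ 2 → i = j := by
    intro i j hij
    apply hb
    rw [← hβ i, ← hβ j] at hij
    have h1 : (b i : 𝓞 k) = b j := by linear_combination hij
    exact_mod_cast h1
  have hfinj : Function.Injective f := by
    have h2 : ∀ i j, β i * (t : 𝓞 k) ≠ -(β j * t) := by
      intro i j h
      have h3 : β i = -β j := by
        apply mul_right_cancel₀ ht0
        linear_combination h
      have h4 : i = j := hβinj i j (by rw [h3]; ring)
      subst h4
      have h5 : (2 : 𝓞 k) * β i = 0 := by linear_combination h3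
      rcases mul_eq_zero.1 h5 with h6 | h6
      · exact two_ne_zero h6
      · exact hβ0 i h6
    rintro (i | i) (j | j) hij
    · simp only [hf, Sum.elim_inl] at hij
      have h3 : β i = β j := mul_right_cancel₀ ht0 hij
      rw [hβinj i j (by rw [h3])]
    · exact absurd hij (h2 i j)
    · exact absurd hij.symm (h2 j i)
    · simp only [hf, Sum.elim_inr, neg_inj] at hij
      have h3 : β i = β j := mul_right_cancel₀ ht0 hij
      rw [hβinj i j (by rw [h3])]
  set s0 : Fin d ⊕ Fin d := Sum.inl ⟨0, hd⟩ with hs0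
  have hev : ∀ s, m.eval (f s) = (C (m.eval (f s0))).eval (f s) := by
    intro s
    rw [eval_C]
    apply units_eq hk2 t ht _ _ (hunit _ (hfsq s)) (hunit _ (hfsq s0))
    exact ((hfdvd s).sub (hfdvd s0)).trans (sub_dvd_eval_sub _ _ m)
  have hcard : max m.natDegree (C (m.eval (f s0))).natDegree < Fintype.card (Fin d ⊕ Fin d) := by
    rw [natDegree_C, Fintype.card_sum, Fintype.card_fin]
    omega
  have h1 := eq_of_natDegree_lt_card_of_eval_eq m _ hfinj hev hcard
  rw [h1, natDegree_C] at hmpos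
  exact lt_irrefl _ hmpos

end

end Pool.Agent.Y789.SG
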