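import Mathlib
import Pool.Agent.Y789.SG.NonSqC
import Pool.Agent.H637R2.Leo.Poly

set_option autoImplicit false

/-!
# The element `α c(α)` is not a square, II
-/

namespace Pool.Agent.Y789.SG

open NumberField Polynomial

lemma int_bound (m s y D T : ℤ) (hD : 0 < D) (h : (2 * m * s) ^ 2 = y ^ 2 + D)
    (hy : D + |T| - |T| ≤ |y|) : False := by
  have h1 : |y| < |2 * m * s| := by
    apply sq_lt_sq.1
    linarith
  have h2 : (2 * m * s) ^ 2 = |2 * m * s| ^ 2 := (sq_abs _).symm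
  have h3 : y ^ 2 = |y| ^ 2 := (sq_abs _).symm
  rw [h2, h3] at h
  have h4 := abs_nonneg y
  nlinarith

/-- the sign -/
lemma prod_sign {R : Type} [CommRing R] {d : ℕ} (a : R) (b β : Fin d → R)
    (h : ∀ i, b i - a = β i ^ 2) : ∏ i, (a - b i) = (-1) ^ d * ∏ i, β i ^ 2 := by
  have h1 : ∀ i, a - b i = (-1) * β i ^ 2 := fun i => by rw [← h i]; ring
  rw [Finset.prod_congr rfl fun i _ => h1 i, Finset.prod_mul_distrib]
  simp

theorem nonsq2 {k : Type} [Field k] [NumberField k] (hk2 : Module.finrank ℚ k = 2)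
    [IsTotallyComplex k] {d : ℕ} (hd : 0 < d) (b : Fin d → ℤ) (a : 𝓞 k) (β : Fin d → 𝓞 k)
    (hβ : ∀ i, (b i : 𝓞 k) - a = β i ^ 2) (hβ0 : ∀ i, β i ≠ 0)
    (hA : ∀ n : ℤ, ∏ i, β i ^ 2 ≠ (n : 𝓞 k)) :
    ∃ M : ℤ, ∀ t : ℤ, M ≤ |t| → ∀ (F K : Type) [Field F] [NumberField F] [IsTotallyReal F]
      [Field K] [NumberField K] [IsTotallyComplex K] [Algebra F K] [Algebra k K],
      Module.finrank F K = 2 → Module.finrank ℚ F = d → ∀ w : F,
      ∏ i, (w - (b i : F) * (t : F) ^ 2) = 1 → IntermediateField.adjoin ℚ {w} = ⊤ →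
      ∀ c : K ≃ₐ[F] K, c ≠ 1 →
      ¬ IsSquare ((algebraMap F K w - algebraMap k K a * (t : K) ^ 2) *
        c (algebraMap F K w - algebraMap k K a * (t : K) ^ 2)) := by
  classical
  obtain ⟨φ₀⟩ : Nonempty (k →+* ℂ) := inferInstance
  obtain ⟨T, N, hT, hN⟩ := quadC hk2 φ₀ (∏ i, β i ^ 2)
  obtain ⟨T', m, -, hm⟩ := quadC hk2 φ₀ (∏ i, β i)
  set A' : ℂ := φ₀ ((∏ i, β i ^ 2 : 𝓞 k) : k) with hA'
  set B' : ℂ := φ₀ ((∏ i, β i : 𝓞 k) : k) with hB'
  have hAB : A' = B' ^ 2 := by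
    have h1 : (((∏ i, β i) ^ 2 : 𝓞 k) : k) = ((∏ i, β i : 𝓞 k) : k) ^ 2 :=
      map_pow (algebraMap (𝓞 k) k) _ 2
    rw [hA', hB', Finset.prod_pow, h1, map_pow]
  have hNm : N = m ^ 2 := by
    have : (N : ℂ) = (m : ℂ) ^ 2 := by
      rw [← hN, ← hm, hAB, map_pow]
      ring
    exact_mod_cast this
  have hB0 : B' ≠ 0 := by
    rw [hB', Ne, map_eq_zero]
    have h1 : (∏ i, β i : 𝓞 k) ≠ 0 := Finset.prod_ne_zero_iff.2 fun i _ => hβ0 i
    exact fun h => h1 (RingOfIntegers.ext (h.trans (map_zero _).symm))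
  have hm0 : 0 < m := by
    have h1 : (m : ℂ) = ((Complex.normSq B' : ℝ) : ℂ) := by
      rw [← hm, Complex.mul_conj]
    have h2 : (m : ℝ) = Complex.normSq B' := by exact_mod_cast h1
    have h3 : 0 < Complex.normSq B' := Complex.normSq_pos.2 hB0
    rw [← h2] at h3
    exact_mod_cast h3
  have him : A'.im ≠ 0 := by
    intro h0
    have h1 : (starRingEnd ℂ) A' = A' := Complex.conj_eq_iff_im.2 h0
    rw [h1] at hN
    have h2 : (A' - m) * (A' + m) = 0 := by
      have : (N : ℂ) = (m : ℂ) ^ 2 := by rw [hNm]; push_cast; ring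
      linear_combination hN + this
    have h3 : ∃ n : ℤ, A' = n := by
      rcases mul_eq_zero.1 h2 with h | h
      · exact ⟨m, by linear_combination h⟩
      · exact ⟨-m, by push_cast; linear_combination h⟩
    obtain ⟨n, hn⟩ := h3
    apply hA n
    apply RingOfIntegers.ext
    apply φ₀.injective
    change A' = φ₀ (((n : ℤ) : 𝓞 k) : k)
    rw [hn]
    simp
  set D : ℤ := 4 * m ^ 2 - T ^ 2 with hD
  have hDpos : 0 < D := by
    have h1 : ((D : ℤ) : ℂ) = ((4 * A'.im ^ 2 : ℝ) : ℂ) := by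
      rw [hD]
      push_cast
      have h2 : (m : ℂ) ^ 2 = A' * (starRingEnd ℂ) A' := by rw [hN, hNm]; push_cast; ring
      rw [h2, ← hT]
      apply Complex.ext
      · simp [pow_two]
        ring
      · simp [pow_two]
        ring
    have h2 : ((D : ℤ) : ℝ) = 4 * A'.im ^ 2 := by exact_mod_cast h1
    have h3 : (0 : ℝ) < 4 * A'.im ^ 2 := by positivity
    rw [← h2] at h3
    exact_mod_cast h3
  refine ⟨D + |T|, ?_⟩
  intro t ht F K _ _ _ _ _ _ _ _ hFK hFd w hw hgen c hc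
  set α : K := algebraMap F K w - algebraMap k K a * (t : K) ^ 2 with hα
  rintro ⟨γ, hγ⟩
  have hquad : Algebra.IsQuadraticExtension F K := ⟨hFK⟩
  have hcard : Nat.card (K ≃ₐ[F] K) = 2 := by
    rw [IsGalois.card_aut_eq_finrank, hFK]
  have hcuniq : ∀ c' : K ≃ₐ[F] K, c' ≠ 1 → c' = c := by
    intro c' hc'
    obtain ⟨a, b, hab, huniv⟩ := (Nat.card_eq_two_iff).1 hcard
    have h1 : ∀ x : K ≃ₐ[F] K, x = a ∨ x = b := fun x => by
      have : x ∈ ({a, b} : Set (K ≃ₐ[F] K)) := huniv ▸ Set.mem_univ x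
      simpa using this
    rcases h1 1 with h | h <;> rcases h1 c with h' | h' <;> rcases h1 c' with h'' | h'' <;>
      simp_all
  have hconj := conj_comp hFK c hc
  have ht0 : (t : ℂ) ≠ 0 := by
    have h1 : t ≠ 0 := by
      rintro rfl
      rw [abs_zero] at ht
      have := abs_nonneg T
      linarith
    exact_mod_cast h1
  set a' : ℂ := φ₀ a with ha'
  -- the restriction to k
  have hres : ∀ φ : K →+* ℂ, φ (algebraMap k K a) = a' ∨ φ (algebraMap k K a) = (starRingEnd ℂ) a' := by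
    intro φ
    set φ1 : k →ₐ[ℚ] ℂ := RingHom.equivRatAlgHom k ℂ φ₀ with h1
    set φ2 : k →ₐ[ℚ] ℂ := RingHom.equivRatAlgHom k ℂ (ComplexEmbedding.conjugate φ₀) with h2
    have hne : φ1 ≠ φ2 := fun h => conj_ne φ₀ ((RingHom.equivRatAlgHom k ℂ).injective h).symm
    have hcard : Fintype.card (k →ₐ[ℚ] ℂ) = 2 := by
      rw [← Fintype.card_congr (RingHom.equivRatAlgHom k ℂ), NumberField.Embeddings.card, hk2]
    have huniv : (Finset.univ : Finset (k →ₐ[ℚ] ℂ)) = {φ1, φ2} := by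
      symm
      apply Finset.eq_univ_of_card
      rw [Finset.card_pair hne, hcard]
    have h3 : RingHom.equivRatAlgHom k ℂ (φ.comp (algebraMap k K)) ∈
        (Finset.univ : Finset (k →ₐ[ℚ] ℂ)) := Finset.mem_univ _
    rw [huniv, Finset.mem_insert, Finset.mem_singleton] at h3
    rcases h3 with h3 | h3
    · left
      exact congrArg (fun f : k →ₐ[ℚ] ℂ => f a) h3
    · right
      exact congrArg (fun f : k →ₐ[ℚ] ℂ => f a) h3
  have hreal : ∀ σ : F →+* ℂ, (starRingEnd ℂ) (σ w) = σ w := by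
    intro σ
    have h1 : ComplexEmbedding.IsReal σ :=
      InfinitePlace.isReal_of_mk_isReal (IsTotallyReal.isReal (InfinitePlace.mk σ))
    have h2 := ComplexEmbedding.isReal_iff.1 h1
    exact congrArg (fun f : F →+* ℂ => f w) h2
  have hval : ∀ φ : K →+* ℂ, φ α * (starRingEnd ℂ) (φ α) =
      (φ (algebraMap F K w) - a' * (t : ℂ) ^ 2) *
        (φ (algebraMap F K w) - (starRingEnd ℂ) a' * (t : ℂ) ^ 2) := by
    intro φ
    have h1 : φ α = φ (algebraMap F K w) - φ (algebraMap k K a) * (t : ℂ) ^ 2 := by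
      rw [hα, map_sub, map_mul, map_pow, map_intCast]
    have h2 : (starRingEnd ℂ) (φ (algebraMap F K w)) = φ (algebraMap F K w) :=
      hreal (φ.comp (algebraMap F K))
    rw [h1, map_sub, map_mul, map_pow, map_intCast, h2]
    rcases hres φ with h | h
    · rw [h]
    · rw [h, Complex.conj_conj, mul_comm]
  have ha0 : ∀ x : ℂ, (starRingEnd ℂ) x = x → (x - a' * (t : ℂ) ^ 2) ≠ 0 := by
    intro x hx h0
    have h1 : (starRingEnd ℂ) a' = a' := by
      have h2 : (starRingEnd ℂ) (a' * (t : ℂ) ^ 2) = a' * (t : ℂ) ^ 2 := by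
        rw [← sub_eq_zero.1 h0, hx]
      rw [map_mul, map_pow, map_intCast] at h2
      exact mul_right_cancel₀ (pow_ne_zero 2 ht0) h2
    apply him
    rw [← Complex.conj_eq_iff_im]
    have h3 : A' = ∏ i, ((b i : ℂ) - a') := by
      have h4 : (∏ i, β i ^ 2 : 𝓞 k) = ∏ i, ((b i : 𝓞 k) - a) :=
        Finset.prod_congr rfl fun i _ => (hβ i).symm
      rw [hA', h4]
      have h5 : ((∏ i, ((b i : 𝓞 k) - a) : 𝓞 k) : k) = ∏ i, ((b i : k) - (a : k)) := by
        refine (map_prod (algebraMap (𝓞 k) k) (fun i => (b i : 𝓞 k) - a) Finset.univ).trans ?_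
        refine Finset.prod_congr rfl fun i _ => ?_
        rw [map_sub, map_intCast]
      rw [h5, map_prod]
      refine Finset.prod_congr rfl fun i _ => ?_
      rw [map_sub, map_intCast]
    rw [h3, map_prod]
    refine Finset.prod_congr rfl fun i _ => ?_
    rw [map_sub, map_intCast, h1]
  have hα0 : ∀ φ : K →+* ℂ, φ α * (starRingEnd ℂ) (φ α) ≠ 0 := by
    intro φ
    have hr : (starRingEnd ℂ) (φ (algebraMap F K w)) = φ (algebraMap F K w) :=
      hreal (φ.comp (algebraMap F K))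
    rw [hval]
    apply mul_ne_zero
    · exact ha0 _ hr
    · intro h
      apply ha0 _ hr
      have h2 := congrArg (starRingEnd ℂ) h
      rw [map_zero, map_sub, map_mul, map_pow, map_intCast, Complex.conj_conj, hr] at h2
      exact h2
  -- the square root is in F
  have hcγ : c γ = γ := by
    have hcc : c (c α) = α := by
      obtain ⟨φ⟩ : Nonempty (K →+* ℂ) := inferInstance
      apply φ.injective
      rw [hconj, hconj, Complex.conj_conj]
    have h1 : c γ * c γ = γ * γ := by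
      rw [← map_mul, ← hγ, map_mul, hcc, mul_comm]
    rcases mul_self_eq_mul_self_iff.1 h1 with h | h
    · exact h
    · exfalso
      obtain ⟨φ⟩ : Nonempty (K →+* ℂ) := inferInstance
      have h2 : φ α * (starRingEnd ℂ) (φ α) = -(φ γ * (starRingEnd ℂ) (φ γ)) := by
        rw [← hconj φ α, ← map_mul, hγ, ← hconj φ γ, h, map_mul, map_neg]
        ring
      rw [Complex.mul_conj, Complex.mul_conj] at h2
      have h3 : Complex.normSq (φ α) = -Complex.normSq (φ γ) := by exact_mod_cast h2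
      have h4 := Complex.normSq_nonneg (φ α)
      have h5 := Complex.normSq_nonneg (φ γ)
      have h6 : Complex.normSq (φ α) = 0 := by linarith
      apply hα0 φ
      rw [Complex.mul_conj, h6]
      simp
  obtain ⟨g, hg⟩ : ∃ g : F, algebraMap F K g = γ := by
    have h1 : γ ∈ (⊥ : IntermediateField F K) := by
      rw [IsGalois.mem_bot_iff_fixed]
      intro f
      by_cases hf : f = 1
      · rw [hf]; rfl
      · rw [hcuniq f hf]; exact hcγ
    exact IntermediateField.mem_bot.1 h1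
  -- integrality
  have hwint : IsIntegral ℤ w :=
    Pool.Agent.H637R2.Leo.theta_integral hd (fun i => b i * t ^ 2) w (by
      rw [← hw]
      refine Finset.prod_congr rfl fun i _ => ?_
      push_cast
      ring)
  have hαint : IsIntegral ℤ α := by
    rw [hα]
    apply IsIntegral.sub
    · exact hwint.map (algebraMap F K).toIntAlgHom
    · apply IsIntegral.mul
      · exact (RingOfIntegers.isIntegral_coe a).map (algebraMap k K).toIntAlgHom
      · exact IsIntegral.pow (isIntegral_algebraMap (R := ℤ) (x := t)) 2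
  have hgint : IsIntegral ℤ g := by
    have h1 : IsIntegral ℤ (γ ^ 2) := by
      rw [pow_two, ← hγ]
      exact hαint.mul (hαint.map (c : K →+* K).toIntAlgHom)
    have h2 : IsIntegral ℤ γ := h1.of_pow (by norm_num)
    rw [← hg] at h2
    exact (isIntegral_algHom_iff (algebraMap F K).toIntAlgHom (algebraMap F K).injective).1 h2
  set s : ℤ := Algebra.norm ℤ (⟨g, hgint⟩ : 𝓞 F) with hs
  have hsprod : (s : ℂ) = ∏ σ : F →+* ℂ, σ g := by
    have h1 := Algebra.norm_eq_prod_embeddings ℚ ℂ g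
    have h2 : ∏ σ : F →+* ℂ, σ g = ∏ σ : F →ₐ[ℚ] ℂ, σ g :=
      Fintype.prod_equiv (RingHom.equivRatAlgHom F ℂ) _ _ fun σ => rfl
    have h3 : ((s : ℤ) : ℚ) = Algebra.norm ℚ g := Algebra.coe_norm_int (⟨g, hgint⟩ : 𝓞 F)
    rw [h2, ← h1, ← h3, map_intCast]
  have hσ : ∀ σ : F →+* ℂ, σ g * σ g = (a' * (t : ℂ) ^ 2 - σ w) *
      ((starRingEnd ℂ) a' * (t : ℂ) ^ 2 - σ w) := by
    intro σ
    obtain ⟨φ, hφ⟩ : ∃ φ : K →+* ℂ, φ.comp (algebraMap F K) = σ := by
      let := σ.toAlgebra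
      let f : K →ₐ[F] ℂ := IsAlgClosed.lift
      exact ⟨f, f.comp_algebraMap⟩
    have h1 : σ g = φ γ := by rw [← hg, ← hφ]; rfl
    have h2 : σ w = φ (algebraMap F K w) := by rw [← hφ]; rfl
    rw [h1, ← map_mul, ← hγ, map_mul, hconj, hval, h2]
    ring
  have hprod : (s : ℂ) * s = (∏ i, (a' * (t : ℂ) ^ 2 - ((b i * t ^ 2 : ℤ) : ℂ)) - 1) *
      (∏ i, ((starRingEnd ℂ) a' * (t : ℂ) ^ 2 - ((b i * t ^ 2 : ℤ) : ℂ)) - 1) := by
    have hw' : ∏ i, (w - ((b i * t ^ 2 : ℤ) : F)) = 1 := by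
      rw [← hw]
      refine Finset.prod_congr rfl fun i _ => ?_
      push_cast
      ring
    rw [← prod_emb hd hFd (fun i => b i * t ^ 2) w hw' hgen,
      ← prod_emb hd hFd (fun i => b i * t ^ 2) w hw' hgen, ← Finset.prod_mul_distrib, hsprod,
      ← Finset.prod_mul_distrib]
    exact Finset.prod_congr rfl fun σ _ => hσ σ
  have hβ' : ∀ i, (b i : ℂ) - a' = φ₀ (β i) ^ 2 := by
    intro i
    have h1 := congrArg (fun x : 𝓞 k => φ₀ (x : k)) (hβ i)
    simp only [map_sub, map_intCast, map_pow] at h1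
    exact h1
  have hAA : A' = ∏ i, φ₀ (β i) ^ 2 := by
    have h5 : ((∏ i, β i ^ 2 : 𝓞 k) : k) = ∏ i, (β i : k) ^ 2 := by
      refine (map_prod (algebraMap (𝓞 k) k) (fun i => β i ^ 2) Finset.univ).trans ?_
      refine Finset.prod_congr rfl fun i _ => ?_
      rw [map_pow]
    rw [hA', h5, map_prod]
    refine Finset.prod_congr rfl fun i _ => ?_
    rw [map_pow]
  have hP : ∀ z : ℂ, ∏ i, (z * (t : ℂ) ^ 2 - ((b i * t ^ 2 : ℤ) : ℂ)) =
      ((t : ℂ) ^ 2) ^ d * ∏ i, (z - b i) := by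
    intro z
    have h1 : ∀ i, z * (t : ℂ) ^ 2 - ((b i * t ^ 2 : ℤ) : ℂ) = (t : ℂ) ^ 2 * (z - b i) := by
      intro i; push_cast; ring
    rw [Finset.prod_congr rfl fun i _ => h1 i, Finset.prod_mul_distrib]
    simp
  set ε : ℂ := (-1) ^ d with hε
  have hε2 : ε * ε = 1 := by
    rw [hε, ← mul_pow]
    norm_num
  have hPa : ∏ i, (a' - b i) = ε * A' := by
    rw [prod_sign a' (fun i => (b i : ℂ)) (fun i => φ₀ (β i)) hβ', hAA]
  have hPb : ∏ i, ((starRingEnd ℂ) a' - b i) = ε * (starRingEnd ℂ) A' := by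
    have h1 := congrArg (starRingEnd ℂ) hPa
    rw [map_prod, map_mul, hε, map_pow, map_neg, map_one] at h1
    rw [← h1]
    refine Finset.prod_congr rfl fun i _ => ?_
    rw [map_sub, map_intCast]
  rw [hP, hP, hPa, hPb] at hprod
  set e : ℤ := (-1) ^ d with he
  have hee : (e : ℂ) = ε := by rw [he, hε]; push_cast; rfl
  have he2 : e * e = 1 := by
    rw [he, ← mul_pow]
    norm_num
  set τ : ℤ := (t ^ 2) ^ d with hτ
  have hττ : (τ : ℂ) = ((t : ℂ) ^ 2) ^ d := by rw [hτ]; push_cast; rfl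
  have key : (2 * m * s) ^ 2 = (2 * m ^ 2 * τ - e * T) ^ 2 + D := by
    have h1 : (((2 * m * s) ^ 2 : ℤ) : ℂ) = (((2 * m ^ 2 * τ - e * T) ^ 2 + D : ℤ) : ℂ) := by
      have h2 : (s : ℂ) * s = (τ : ℂ) ^ 2 * (m : ℂ) ^ 2 - e * τ * T + 1 := by
        rw [hprod, ← hττ, ← hee, ← hT]
        have h3 : (m : ℂ) ^ 2 = A' * (starRingEnd ℂ) A' := by rw [hN, hNm]; push_cast; ring
        have h4 : (e : ℂ) * e = 1 := by rw [hee]; exact hε2
        rw [h3]
        linear_combination (τ : ℂ) ^ 2 * A' * (starRingEnd ℂ) A' * h4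
      have h4 : (e : ℂ) * e = 1 := by rw [hee]; exact hε2
      rw [hD]
      push_cast
      linear_combination 4 * (m : ℂ) ^ 2 * h2 - (T : ℂ) ^ 2 * h4
    exact_mod_cast h1
  have hτ1 : |t| ≤ τ := by
    have h1 : 1 ≤ |t| := by
      have := abs_nonneg T
      linarith
    have h2 : |t| ≤ t ^ 2 := by
      rw [← sq_abs]
      nlinarith
    have h3 : 1 ≤ t ^ 2 := h1.trans h2
    calc |t| ≤ t ^ 2 := h2
      _ = (t ^ 2) ^ 1 := (pow_one _).symm
      _ ≤ (t ^ 2) ^ d := pow_le_pow_right₀ h3 hd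
  refine int_bound m s _ D T hDpos key ?_
  have h1 : |e * T| = |T| := by
    rw [abs_mul]
    have : |e| = 1 := by rw [he, abs_pow, abs_neg, abs_one, one_pow]
    rw [this, one_mul]
  have h2 : 2 * m ^ 2 * τ - |T| ≤ |2 * m ^ 2 * τ - e * T| := by
    have h3 := le_abs_self (2 * m ^ 2 * τ - e * T)
    have h4 := le_abs_self (e * T)
    rw [h1] at h4
    linarith
  have h5 : τ ≤ 2 * m ^ 2 * τ := by
    have h6 : 0 ≤ τ := (abs_nonneg t).trans hτ1
    have h7 : 1 ≤ 2 * m ^ 2 := by nlinarith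
    nlinarith
  linarith

end Pool.Agent.Y789.SG
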