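import Mathlib
import Pool.Agent.Y789.SG.Dk
import Pool.Agent.Y789.SG.LogU
import Pool.Agent.Y789.SG.Real
import Pool.Agent.Y789.SG.NonSq
import Pool.Agent.Y789.SG.NonSqD
import Pool.Agent.W289.SL.Thm2

set_option autoImplicit false

/-!
# The main theorem
-/

namespace Pool.Agent.Y789.SG

open NumberField Pool.Agent.W289.SL

section coe

variable {H : Type} [Field H] (x y : 𝓞 H)

lemma cadd : ((x + y : 𝓞 H) : H) = (x : H) + y := map_add (algebraMap (𝓞 H) H) x y

lemma csub : ((x - y : 𝓞 H) : H) = (x : H) - y := map_sub (algebraMap (𝓞 H) H) x y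

lemma cmul : ((x * y : 𝓞 H) : H) = (x : H) * y := map_mul (algebraMap (𝓞 H) H) x y

lemma cpow (n : ℕ) : ((x ^ n : 𝓞 H) : H) = (x : H) ^ n := map_pow (algebraMap (𝓞 H) H) x n

lemma cint (n : ℤ) : (((n : ℤ) : 𝓞 H) : H) = (n : H) := map_intCast (algebraMap (𝓞 H) H) n

lemma cone : ((1 : 𝓞 H) : H) = 1 := map_one (algebraMap (𝓞 H) H)

lemma czero : ((0 : 𝓞 H) : H) = 0 := map_zero (algebraMap (𝓞 H) H)

end coe

/-- the units -/
lemma units_v {H : Type} [Field H] {d : ℕ} (Θ : 𝓞 H) (B : Fin d → 𝓞 H)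
    (h : ∏ i, (Θ ^ 2 - B i ^ 2) = 1) :
    ∃ v : Fin d → (𝓞 H)ˣ, ∀ i, (((v i : (𝓞 H)ˣ) : 𝓞 H) : H) * ((Θ : H) + B i) = (Θ : H) - B i := by
  have h1 : ∀ i, IsUnit (Θ - B i) ∧ IsUnit (Θ + B i) := by
    intro i
    have h2 : (Θ - B i) * (Θ + B i) ∣ 1 := by
      rw [← h]
      have h3 : (Θ - B i) * (Θ + B i) = Θ ^ 2 - B i ^ 2 := by ring
      rw [h3]
      exact Finset.dvd_prod_of_mem _ (Finset.mem_univ i)
    have h4 := isUnit_of_dvd_one h2
    exact ⟨isUnit_of_mul_isUnit_left h4, isUnit_of_mul_isUnit_right h4⟩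
  refine ⟨fun i => (h1 i).1.unit * (h1 i).2.unit⁻¹, fun i => ?_⟩
  have h5 : (((h1 i).1.unit * (h1 i).2.unit⁻¹ : (𝓞 H)ˣ) : 𝓞 H) * (Θ + B i) = Θ - B i := by
    rw [Units.val_mul, mul_assoc]
    have h6 : (((h1 i).2.unit⁻¹ : (𝓞 H)ˣ) : 𝓞 H) * (Θ + B i) = 1 := by
      have := Units.inv_mul (h1 i).2.unit
      rwa [IsUnit.unit_spec] at this
    rw [h6, mul_one, IsUnit.unit_spec]
  have h7 := congrArg (algebraMap (𝓞 H) H) h5
  rw [map_mul, map_add, map_sub] at h7
  exact h7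

/-- the Sigma-Leopoldt statement for one field -/
theorem sl_one (p : ℕ) [Fact p.Prime] {k : Type} [Field k] [NumberField k] [IsTotallyComplex k]
    {d : ℕ} (b : Fin d → ℤ) (a : 𝓞 k) (β : Fin d → 𝓞 k)
    (hβ : ∀ i, (b i : 𝓞 k) - a = β i ^ 2)
    {L₀ : ℂ_[p] → ℂ_[p]} (hL₀ : IsIwasawaLog p L₀) (t : ℤ) (ht0 : t ≠ 0)
    (hexc : ∀ (ι : Fin d → (k →+* ℂ_[p])) (y : Fin d → ℂ_[p]),
      (∀ j, (∏ i, (y j ^ 2 + ι j a - b i)) * (t : ℂ_[p]) ^ (2 * d) = 1) →
      (Function.Injective fun j => y j ^ 2 + ι j a) →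
      (Matrix.of fun i j => L₀ ((y j - ι j (β i)) / (y j + ι j (β i)))).det ≠ 0)
    {F K H : Type} [Field F] [NumberField F] [Field K] [NumberField K] [IsTotallyComplex K]
    [Field H] [NumberField H] [Algebra F K] [Algebra k K] [Algebra K H]
    (hFK : Module.finrank F K = 2) (hFd : Module.finrank ℚ F = d) (w : F)
    (hw : ∏ i, (w - (b i : F) * (t : F) ^ 2) = 1) (hgen : IntermediateField.adjoin ℚ {w} = ⊤)
    (hsq : ¬ IsSquare (algebraMap F K w - algebraMap k K a * (t : K) ^ 2))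
    (hKH : Module.finrank K H = 2) (θ : H)
    (hθ : θ ^ 2 = algebraMap K H (algebraMap F K w - algebraMap k K a * (t : K) ^ 2))
    (S : Set (K →+* ℂ_[p])) (hS : IsCMType p F K S) (χ : (H ≃ₐ[K] H) →* ℂ_[p]ˣ) (hχ : χ ≠ 1) :
    SigmaLeopoldt p K H S χ := by
  classical
  have hd2 : Module.finrank ℚ K = 2 * d := by
    rw [← Module.finrank_mul_finrank ℚ F K, hFd, hFK, mul_comm]
  have hd : 1 ≤ d := by
    have := Module.finrank_pos (R := ℚ) (M := K)
    omega
  have hquad : Algebra.IsQuadraticExtension F K := ⟨hFK⟩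
  have hcard : Nat.card (K ≃ₐ[F] K) = 2 := by
    rw [IsGalois.card_aut_eq_finrank, hFK]
  obtain ⟨c, hc⟩ : ∃ c : K ≃ₐ[F] K, c ≠ 1 := by
    have : Nontrivial (K ≃ₐ[F] K) := by
      rw [← Finite.one_lt_card_iff_nontrivial, hcard]; norm_num
    exact exists_ne 1
  apply sigmaLeopoldt_of hKH d hd2 S χ hχ
  intro L hL τ hτ
  have hτθ : τ θ = -θ := neg_root hKH hsq hθ τ hτ
  -- integrality
  have hwint : IsIntegral ℤ w :=
    Pool.Agent.H637R2.Leo.theta_integral hd (fun i => b i * t ^ 2) w (by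
      rw [← hw]
      refine Finset.prod_congr rfl fun i _ => ?_
      push_cast
      ring)
  set ε : 𝓞 F := ⟨w, hwint⟩ with hε
  have hεw : (ε : F) = w := rfl
  set W : 𝓞 H := algebraMap (𝓞 K) (𝓞 H) (algebraMap (𝓞 F) (𝓞 K) ε) with hW
  have hWc : (W : H) = algebraMap K H (algebraMap F K w) := rfl
  set A : 𝓞 H := algebraMap (𝓞 K) (𝓞 H) (algebraMap (𝓞 k) (𝓞 K) a) with hA
  have hAc : (A : H) = algebraMap K H (algebraMap k K a) := rfl
  set B : Fin d → 𝓞 H := fun i =>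
    algebraMap (𝓞 K) (𝓞 H) (algebraMap (𝓞 k) (𝓞 K) (β i)) * (t : 𝓞 H) with hB
  have hBc : ∀ i, (B i : H) = algebraMap K H (algebraMap k K (β i)) * (t : H) := by
    intro i
    simp only [hB]
    rw [cmul, cint]
    rfl
  have hθ2 : θ ^ 2 = (W : H) - (A : H) * (t : H) ^ 2 := by
    rw [hθ, hWc, hAc, map_sub, map_mul, map_pow, map_intCast]
  have hθint : IsIntegral ℤ θ := by
    have h1 : IsIntegral ℤ (θ ^ 2) := by
      have h2 : θ ^ 2 = ((W - A * (t : 𝓞 H) ^ 2 : 𝓞 H) : H) := by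
        rw [hθ2, csub, cmul, cpow, cint]
      rw [h2]
      exact RingOfIntegers.isIntegral_coe _
    exact h1.of_pow (by norm_num)
  set Θ : 𝓞 H := ⟨θ, hθint⟩ with hΘ
  have hΘc : (Θ : H) = θ := rfl
  have hBA : ∀ i, B i ^ 2 = ((b i : 𝓞 H) - A) * (t : 𝓞 H) ^ 2 := by
    intro i
    have h1 := congrArg (fun x : 𝓞 k => algebraMap (𝓞 K) (𝓞 H) (algebraMap (𝓞 k) (𝓞 K) x)) (hβ i)
    simp only [map_sub, map_intCast, map_pow] at h1
    simp only [hB]
    rw [mul_pow, ← h1]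
  have hΘ2 : Θ ^ 2 = W - A * (t : 𝓞 H) ^ 2 := by
    apply RingOfIntegers.ext
    rw [cpow, csub, cmul, cpow, cint]
    exact hθ2
  have hprod : ∏ i, (Θ ^ 2 - B i ^ 2) = 1 := by
    have h1 : ∀ i, Θ ^ 2 - B i ^ 2 = W - (b i : 𝓞 H) * (t : 𝓞 H) ^ 2 := by
      intro i
      rw [hBA, hΘ2]
      ring
    rw [Finset.prod_congr rfl fun i _ => h1 i]
    have h2 : ∏ i, (ε - (b i : 𝓞 F) * (t : 𝓞 F) ^ 2) = 1 := by
      apply RingOfIntegers.ext
      refine (map_prod (algebraMap (𝓞 F) F) _ Finset.univ).trans ?_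
      rw [cone, ← hw]
      refine Finset.prod_congr rfl fun i _ => ?_
      rw [map_sub, map_mul, map_pow, map_intCast, map_intCast]
      rfl
    have h3 := congrArg (fun x : 𝓞 F => algebraMap (𝓞 K) (𝓞 H) (algebraMap (𝓞 F) (𝓞 K) x)) h2
    simp only [map_prod, map_sub, map_mul, map_pow, map_intCast, map_one] at h3
    exact h3
  obtain ⟨v, hv⟩ := units_v Θ B hprod
  have hvne : ∀ i, θ + (B i : H) ≠ 0 ∧ θ - (B i : H) ≠ 0 := by
    intro i
    have h1 : (Θ ^ 2 - B i ^ 2) ≠ 0 := by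
      intro h0
      rw [Finset.prod_eq_zero (Finset.mem_univ i) h0] at hprod
      exact zero_ne_one hprod
    have h2 : (Θ - B i) * (Θ + B i) ≠ 0 := by
      have h3 : (Θ - B i) * (Θ + B i) = Θ ^ 2 - B i ^ 2 := by ring
      rwa [h3]
    constructor
    · intro h
      apply right_ne_zero_of_mul h2
      apply RingOfIntegers.ext
      rw [cadd, czero]
      exact h
    · intro h
      apply left_ne_zero_of_mul h2
      apply RingOfIntegers.ext
      rw [csub, czero]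
      exact h
  have hvv : ∀ i, (((v i : (𝓞 H)ˣ) : 𝓞 H) : H) = (θ - (B i : H)) / (θ + (B i : H)) := by
    intro i
    rw [eq_div_iff (hvne i).1]
    exact hv i
  have hτB : ∀ i, τ (B i : H) = (B i : H) := by
    intro i
    rw [hBc, map_mul, AlgEquiv.commutes, map_intCast]
  have hτv : ∀ i, τ ((v i : (𝓞 H)ˣ) : 𝓞 H) * (((v i : (𝓞 H)ˣ) : 𝓞 H) : H) = 1 := by
    intro i
    rw [hvv, map_div₀, map_sub, map_add, hτθ, hτB]
    have h1 : -θ + (B i : H) ≠ 0 := by
      intro h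
      apply (hvne i).2
      linear_combination -h
    rw [div_mul_div_comm, div_eq_one_iff_eq (mul_ne_zero h1 (hvne i).1)]
    ring
  -- the embeddings
  have hcardF : Fintype.card (F →+* ℂ_[p]) = d := by rw [NumberField.Embeddings.card, hFd]
  set e : Fin d ≃ (F →+* ℂ_[p]) := (Fintype.equivFinOfCardEq hcardF).symm with he
  have hext : ∀ τ' : F →+* ℂ_[p], ∃ s : K →+* ℂ_[p], s.comp (algebraMap F K) = τ' ∧ s ∈ S := by
    intro τ'
    obtain ⟨s, hs⟩ := exists_ext (K := K) τ'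
    by_cases hsS : s ∈ S
    · exact ⟨s, hs, hsS⟩
    · refine ⟨s.comp (c : K →+* K), ?_, ?_⟩
      · rw [← hs]
        ext z
        simp
      · by_contra hcon
        exact hsS ((hS c hc s).2 hcon)
  choose s hs hsS using fun j => hext (e j)
  choose σ hσ using fun j => exists_ext (K := H) (s j)
  have ev : ∀ j (z : K), σ j (algebraMap K H z) = s j z := fun j z => by rw [← hσ j]; rfl
  have evF : ∀ j (z : F), s j (algebraMap F K z) = e j z := fun j z => by rw [← hs j]; rfl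
  refine ⟨v, σ, hτv, fun j => by rw [hσ j]; exact hsS j, ?_⟩
  have htp : (t : ℂ_[p]) ≠ 0 := by exact_mod_cast ht0
  set ι : Fin d → (k →+* ℂ_[p]) := fun j => (s j).comp (algebraMap k K) with hι
  have hιa : ∀ j (z : k), ι j z = s j (algebraMap k K z) := fun j z => rfl
  set y : Fin d → ℂ_[p] := fun j => σ j θ / (t : ℂ_[p]) with hy
  have hysq : ∀ j, y j ^ 2 + ι j a = e j w / (t : ℂ_[p]) ^ 2 := by
    intro j
    have h1 : (σ j θ) ^ 2 = e j w - ι j a * (t : ℂ_[p]) ^ 2 := by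
      rw [← map_pow, hθ, ev, map_sub, map_mul, map_pow, map_intCast, evF, hιa]
    simp only [hy]
    rw [div_pow, h1]
    field_simp
    ring
  have h1 := hexc ι y ?_ ?_
  · intro c' hc'
    have h2 : Matrix.vecMul c' (Matrix.of fun i j => L₀ ((y j - ι j (β i)) / (y j + ι j (β i)))) = 0 := by
      ext j
      rw [Pi.zero_apply, ← hc' j]
      unfold Matrix.vecMul dotProduct
      refine Finset.sum_congr rfl fun i _ => ?_
      change c' i * L₀ ((y j - ι j (β i)) / (y j + ι j (β i))) = _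
      congr 1
      rw [log_unique hL hL₀ (σ j) (v i), hvv, map_div₀, map_sub, map_add, hBc, map_mul, map_intCast,
        ev, ← hιa]
      congr 1
      simp only [hy]
      have e1 : σ j θ / (t : ℂ_[p]) - ι j (β i) = (σ j θ - ι j (β i) * t) / t := by
        field_simp
      have e2 : σ j θ / (t : ℂ_[p]) + ι j (β i) = (σ j θ + ι j (β i) * t) / t := by
        field_simp
      rw [e1, e2, div_div_div_cancel_right₀ htp]
    exact Matrix.eq_zero_of_vecMul_eq_zero h1 h2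
  · intro j
    rw [Finset.prod_congr rfl fun i _ => by rw [hysq j]]
    have h2 : (t : ℂ_[p]) ^ (2 * d) = ∏ _i : Fin d, (t : ℂ_[p]) ^ 2 := by
      rw [pow_mul]
      simp
    rw [h2, ← Finset.prod_mul_distrib]
    have h3 := congrArg (e j) hw
    simp only [map_prod, map_sub, map_mul, map_pow, map_intCast, map_one] at h3
    rw [← h3]
    refine Finset.prod_congr rfl fun i _ => ?_
    field_simp
  · intro j j' hjj
    simp only [hysq] at hjj
    have h2 : e j w = e j' w := by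
      have h3 : (t : ℂ_[p]) ^ 2 ≠ 0 := pow_ne_zero _ htp
      field_simp at hjj
      exact hjj
    apply e.injective
    have hint : Algebra.IsAlgebraic ℚ F := inferInstance
    have htop : Algebra.adjoin ℚ {w} = ⊤ := by
      rw [← IntermediateField.adjoin_simple_toSubalgebra_of_isAlgebraic
        (Algebra.IsAlgebraic.isAlgebraic _), hgen]
      rfl
    apply (RingHom.equivRatAlgHom F ℂ_[p]).injective
    apply AlgHom.ext_of_adjoin_eq_top htop
    intro x hx
    rw [Set.mem_singleton_iff] at hx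
    subst hx
    exact h2

/-- **Main theorem.** -/
theorem main_thm (p : ℕ) [Fact p.Prime] (k : Type) [Field k] [NumberField k] [IsTotallyComplex k]
    (hk : Module.finrank ℚ k = 2) (d : ℕ) (hd : 0 < d) (b : Fin d → ℤ)
    (hb : Function.Injective b) (a : 𝓞 k) (β : Fin d → 𝓞 k)
    (hβ : ∀ i, (b i : 𝓞 k) - a = β i ^ 2) (hβ0 : ∀ i, β i ≠ 0) :
    ∃ S₀ : Set ℤ, S₀.Finite ∧ ∀ t : ℤ, t ∉ S₀ →
      ∀ (F K : Type) [Field F] [NumberField F] [Field K] [NumberField K] [Algebra F K]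
        [Algebra k K] (w : F), Module.finrank F K = 2 →
        ∏ i, (w - (b i : F) * (t : F) ^ 2) = 1 → IntermediateField.adjoin ℚ {w} = ⊤ →
        Module.finrank ℚ F = d ∧ IsTotallyReal F ∧ IsTotallyComplex K ∧
        ¬ IsSquare (algebraMap F K w - algebraMap k K a * (t : K) ^ 2) ∧
        ((∀ n : ℤ, ∏ i, β i ^ 2 ≠ (n : 𝓞 k)) → ∀ c : K ≃ₐ[F] K, c ≠ 1 →
          ¬ IsSquare ((algebraMap F K w - algebraMap k K a * (t : K) ^ 2) *
            c (algebraMap F K w - algebraMap k K a * (t : K) ^ 2))) ∧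
        ∀ (H : Type) [Field H] [NumberField H] [Algebra K H] (θ : H),
          Module.finrank K H = 2 →
          θ ^ 2 = algebraMap K H (algebraMap F K w - algebraMap k K a * (t : K) ^ 2) →
          ∀ S : Set (K →+* ℂ_[p]), IsCMType p F K S →
            ∀ χ : (H ≃ₐ[K] H) →* ℂ_[p]ˣ, χ ≠ 1 → SigmaLeopoldt p K H S χ := by
  classical
  obtain ⟨L₀, hL₀⟩ := exists_iwasawaLog p
  obtain ⟨S₁, hS₁, hS₁'⟩ := exc_set p k hd b hb (a : k) (fun i => (β i : k))
    (fun i => by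
      have h1 := congrArg (algebraMap (𝓞 k) k) (hβ i)
      rw [map_sub, map_intCast, map_pow] at h1
      exact h1)
    (fun i h => hβ0 i (RingOfIntegers.ext (h.trans (map_zero _).symm))) L₀ hL₀
  obtain ⟨M, hM⟩ : ∃ M : ℤ, ∀ t : ℤ, M ≤ |t| → (∀ n : ℤ, ∏ i, β i ^ 2 ≠ (n : 𝓞 k)) →
      ∀ (F K : Type) [Field F] [NumberField F] [IsTotallyReal F]
      [Field K] [NumberField K] [IsTotallyComplex K] [Algebra F K] [Algebra k K],
      Module.finrank F K = 2 → Module.finrank ℚ F = d → ∀ w : F,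
      ∏ i, (w - (b i : F) * (t : F) ^ 2) = 1 → IntermediateField.adjoin ℚ {w} = ⊤ →
      ∀ c : K ≃ₐ[F] K, c ≠ 1 →
      ¬ IsSquare ((algebraMap F K w - algebraMap k K a * (t : K) ^ 2) *
        c (algebraMap F K w - algebraMap k K a * (t : K) ^ 2)) := by
    by_cases hA : ∀ n : ℤ, ∏ i, β i ^ 2 ≠ (n : 𝓞 k)
    · obtain ⟨M, hM⟩ := nonsq2 hk hd b a β hβ hβ0 hA
      exact ⟨M, fun t ht _ => hM t ht⟩
    · exact ⟨0, fun t _ h => absurd h hA⟩
  refine ⟨S₁ ∪ Set.Icc (-(max M 3)) (max M 3), hS₁.union (Set.finite_Icc _ _), ?_⟩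
  intro t ht F K _ _ _ _ _ _ w hFK hw hgen
  rw [Set.mem_union, not_or] at ht
  obtain ⟨ht1, ht2⟩ := ht
  have ht3 : max M 3 < |t| := by
    rw [Set.mem_Icc, ← abs_le] at ht2
    exact lt_of_not_ge ht2
  have htM : M ≤ |t| := (le_max_left _ _).trans ht3.le
  have ht4 : 3 ≤ |t| := (le_max_right _ _).trans ht3.le
  have ht0 : t ≠ 0 := by
    rintro rfl
    simp at ht4
  have hw' : ∏ i, (w - ((b i * t ^ 2 : ℤ) : F)) = 1 := by
    rw [← hw]
    refine Finset.prod_congr rfl fun i _ => ?_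
    push_cast
    ring
  have htsq : 3 ≤ t ^ 2 := by
    rw [← sq_abs]
    nlinarith
  have hgap : ∀ i j, i ≠ j → 3 ≤ |b i * t ^ 2 - b j * t ^ 2| := by
    intro i j hij
    have h1 : b i - b j ≠ 0 := sub_ne_zero.2 fun h => hij (hb h)
    have h2 := Int.one_le_abs h1
    rw [← sub_mul, abs_mul, abs_of_nonneg (by positivity : (0 : ℤ) ≤ t ^ 2)]
    nlinarith
  have hinj : Function.Injective fun i => b i * t ^ 2 := by
    intro i j hij
    exact hb (mul_right_cancel₀ (pow_ne_zero 2 ht0) hij)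
  have hFd : Module.finrank ℚ F = d :=
    Pool.Agent.H637R2.Leo.finrank_eq hd (fun i => b i * t ^ 2) hinj w hw' hgen
  have hFr : IsTotallyReal F := totally_real hd (fun i => b i * t ^ 2) hgap F w hw' hgen
  have hKc : IsTotallyComplex K := isTotallyComplex_of_algebra k K
  have hkK : Module.finrank k K = d := by
    have h1 := Module.finrank_mul_finrank ℚ k K
    have h2 := Module.finrank_mul_finrank ℚ F K
    rw [hk] at h1
    rw [hFd, hFK] at h2
    omega
  have hwK : ∏ i, (algebraMap F K w - (b i : K) * (t : K) ^ 2) = 1 := by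
    have h1 := congrArg (algebraMap F K) hw
    simp only [map_prod, map_sub, map_mul, map_pow, map_intCast, map_one] at h1
    exact h1
  have hsq : ¬ IsSquare (algebraMap F K w - algebraMap k K a * (t : K) ^ 2) :=
    nonsq hk hd hkK b hb a β hβ hβ0 t ht4 _ hwK
  refine ⟨hFd, hFr, hKc, hsq, ?_, ?_⟩
  · intro hA c hc
    exact hM t htM hA F K hFK hFd w hw hgen c hc
  · intro H _ _ _ θ hKH hθ S hS χ hχ
    exact sl_one p b a β hβ hL₀ t ht0 (hS₁' t ht1) hFK hFd w hw hgen hsq hKH θ hθ S hS χ hχ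

end Pool.Agent.Y789.SG
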